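import Pool.Agent.K6.H83.Words

/-!
# Counting the elements given by words: the number is subexponential
-/

set_option autoImplicit false

namespace Pool.Agent.K6.H83.Rec

open Finset Classical

variable {X : Type*} (R : Rec X)

/-- the permutation of a pair -/
noncomputable def F (n : ℕ) (p : V × (Fin n → V)) : Equiv.Perm X := R.Ev p.1 (List.ofFn p.2)

/-- the elements with a word with `n` letters `a` -/
noncomputable def S (n : ℕ) : Finset (Equiv.Perm X) := univ.image (R.F n)

/-- their number -/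
noncomputable def s (n : ℕ) : ℕ := (R.S n).card

lemma Ev_mem_S (u : V) (l : List V) : R.Ev u l ∈ R.S l.length := by
  refine mem_image.2 ⟨(u, l.get), mem_univ _, ?_⟩
  unfold F
  rw [List.ofFn_get]

lemma s_le (n : ℕ) : R.s n ≤ 4 ^ (n + 1) := by
  refine card_image_le.trans ?_
  simp [pow_succ, mul_comm]

/-- the number of the letters different from `b0 b1` -/
def tt {n : ℕ} (p : V × (Fin n → V)) : ℕ := nb p.1 + ((List.ofFn p.2).map nb).sum

lemma tt_eq {n : ℕ} (p : V × (Fin n → V)) : tt p = nb p.1 + ∑ i, nb (p.2 i) := by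
  unfold tt
  rw [List.map_ofFn, List.sum_ofFn]
  rfl

lemma sum_pow_tt (n : ℕ) (z : ℝ) : ∑ p : V × (Fin n → V), z ^ tt p = (1 + 3 * z) ^ (n + 1) := by
  have h1 : ∑ v : V, z ^ nb v = 1 + 3 * z := by
    rw [Fintype.sum_prod_type]
    simp [nb]
    ring
  have h2 : ∀ p : V × (Fin n → V), z ^ tt p = z ^ nb p.1 * ∏ i, z ^ nb (p.2 i) := by
    intro p
    rw [tt_eq, pow_add, Finset.prod_pow_eq_pow_sum]
  simp_rw [h2]
  rw [Fintype.sum_prod_type]
  simp only
  rw [pow_succ', ← h1, Fintype.sum_pow, Finset.sum_mul_sum]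

lemma card_few (n τ : ℕ) (z : ℝ) (hz : 0 < z) (hz1 : z ≤ 1) :
    ((univ.filter fun p : V × (Fin n → V) => tt p ≤ τ).card : ℝ) ≤ (1 + 3 * z) ^ (n + 1) / z ^ τ := by
  rw [le_div_iff₀ (by positivity), ← sum_pow_tt, card_eq_sum_ones, Nat.cast_sum, sum_mul]
  refine le_trans (sum_le_sum (g := fun p => z ^ tt p) fun p hp => ?_)
    (sum_le_univ_sum_of_nonneg fun p => by positivity)
  rw [mem_filter] at hp
  rw [Nat.cast_one, one_mul]
  exact pow_le_pow_of_le_one hz.le hz1 hp.2

/-- the words of the coordinates of the coordinates -/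
def W2 (u : V) (l : List V) (i : Bool × Bool) : V × List V :=
  Cd i.2 (Cd i.1 u l).1 (Cd i.1 u l).2

lemma sum_W2 (u : V) (l : List V) : ∑ i, (W2 u l i).2.length = N2 u l := by
  rw [Fintype.sum_prod_type]
  simp only [Fintype.sum_bool, W2, N2]
  rw [← len_Cd, ← len_Cd]
  ring

lemma card_many (n K : ℕ) (C μ : ℝ) (hC : 0 ≤ C) (hμ : 1 ≤ μ) (h : ∀ k, (R.s k : ℝ) ≤ C * μ ^ k) :
    ((image (R.F n) (univ.filter fun p : V × (Fin n → V) => N2 p.1 (List.ofFn p.2) ≤ K)).card : ℝ) ≤
      4 * ((K + 1) ^ 4 * (C ^ 4 * μ ^ K)) := by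
  set B := image (R.F n) (univ.filter fun p : V × (Fin n → V) => N2 p.1 (List.ofFn p.2) ≤ K) with hB
  have hch : ∀ g : Equiv.Perm X, ∃ p : V × (Fin n → V), g ∈ B → (N2 p.1 (List.ofFn p.2) ≤ K ∧ R.F n p = g) := by
    intro g
    by_cases hg : g ∈ B
    · obtain ⟨p, hp, hpg⟩ := mem_image.1 hg
      exact ⟨p, fun _ => ⟨(mem_filter.1 hp).2, hpg⟩⟩
    · exact ⟨((false, false), fun _ => (false, false)), fun h => absurd h hg⟩
  choose p hp using hch
  set T : Finset (Bool × Bool → ℕ) :=
    (Fintype.piFinset fun _ : Bool × Bool => range (K + 1)).filter fun k => ∑ i, k i ≤ K with hT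
  set D : Finset ((Bool × Bool) × (Bool × Bool → Equiv.Perm X)) :=
    univ ×ˢ T.biUnion (fun k => Fintype.piFinset fun i => R.S (k i)) with hD
  set f : Equiv.Perm X → (Bool × Bool) × (Bool × Bool → Equiv.Perm X) := fun g =>
    ((par (Cd false (p g).1 (List.ofFn (p g).2)).2, par (Cd true (p g).1 (List.ofFn (p g).2)).2),
      fun i => R.Ev (W2 (p g).1 (List.ofFn (p g).2) i).1 (W2 (p g).1 (List.ofFn (p g).2) i).2) with hf
  have h1 : B.card ≤ D.card := by
    refine card_le_card_of_injOn f ?_ ?_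
    · intro g hg
      have hg' := (hp g hg).1
      rw [hD]
      simp only [hf, coe_product, Set.mem_prod, mem_coe, true_and, mem_biUnion,
        Fintype.mem_piFinset, coe_univ, Set.mem_univ]
      refine ⟨fun i => (W2 (p g).1 (List.ofFn (p g).2) i).2.length, ?_, fun i => R.Ev_mem_S _ _⟩
      rw [hT, mem_filter, sum_W2]
      refine ⟨Fintype.mem_piFinset.2 fun i => ?_, hg'⟩
      rw [mem_range]
      have : (W2 (p g).1 (List.ofFn (p g).2) i).2.length ≤ ∑ i, (W2 (p g).1 (List.ofFn (p g).2) i).2.length :=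
        single_le_sum (f := fun i => (W2 (p g).1 (List.ofFn (p g).2) i).2.length) (fun _ _ => Nat.zero_le _)
          (mem_univ i)
      rw [sum_W2] at this
      omega
    · intro g hg g' hg' hgg
      rw [← (hp g hg).2, ← (hp g' hg').2]
      simp only [hf, Prod.mk.injEq] at hgg
      obtain ⟨⟨e1, e2⟩, e3⟩ := hgg
      unfold F
      apply R.Ev_ext
      · simp [par]
      · intro i
        apply R.Ev_ext
        · cases i
          · exact e1
          · exact e2
        · intro j
          exact congrFun e3 (i, j)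
  have h2 : (D.card : ℝ) ≤ 4 * ((K + 1) ^ 4 * (C ^ 4 * μ ^ K)) := by
    have h3 : (D.card : ℝ) ≤ 4 * ∑ k ∈ T, ∏ i, (R.s (k i) : ℝ) := by
      rw [hD, card_product, Nat.cast_mul]
      have h4 : ((univ : Finset (Bool × Bool)).card : ℝ) = 4 := by
        rw [card_univ]
        simp
      rw [h4]
      refine mul_le_mul_of_nonneg_left ?_ (by norm_num)
      have h5 : (T.biUnion (fun k => Fintype.piFinset fun i => R.S (k i))).card ≤
          ∑ k ∈ T, ∏ i, R.s (k i) := by
        refine card_biUnion_le.trans (sum_le_sum fun k _ => ?_)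
        rw [Fintype.card_piFinset]
        exact le_rfl
      exact_mod_cast h5
    refine h3.trans (mul_le_mul_of_nonneg_left ?_ (by norm_num))
    have h6 : ∀ k ∈ T, ∏ i, (R.s (k i) : ℝ) ≤ C ^ 4 * μ ^ K := by
      intro k hk
      rw [hT, mem_filter] at hk
      calc ∏ i, (R.s (k i) : ℝ) ≤ ∏ i, (C * μ ^ k i) :=
            prod_le_prod (fun i _ => Nat.cast_nonneg _) fun i _ => h (k i)
        _ = C ^ 4 * μ ^ (∑ i, k i) := by
            rw [prod_mul_distrib, prod_pow_eq_pow_sum]
            congr 1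
            rw [prod_const, card_univ]
            simp
        _ ≤ C ^ 4 * μ ^ K := by
            refine mul_le_mul_of_nonneg_left ?_ (by positivity)
            exact pow_le_pow_right₀ hμ hk.2
    refine (sum_le_card_nsmul T _ _ h6).trans ?_
    rw [nsmul_eq_mul]
    refine mul_le_mul_of_nonneg_right ?_ (by positivity)
    have h7 : T.card ≤ (K + 1) ^ 4 := by
      refine (card_filter_le _ _).trans ?_
      rw [Fintype.card_piFinset]
      simp
    exact_mod_cast h7
  refine le_trans ?_ h2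
  exact_mod_cast h1

lemma s_bound (n K τ : ℕ) (hK : 2 * n + 2 ≤ 2 * K + τ) (z : ℝ) (hz : 0 < z) (hz1 : z ≤ 1) (C μ : ℝ)
    (hC : 0 ≤ C) (hμ : 1 ≤ μ) (h : ∀ k, (R.s k : ℝ) ≤ C * μ ^ k) :
    (R.s n : ℝ) ≤ (1 + 3 * z) ^ (n + 1) / z ^ τ + 4 * ((K + 1) ^ 4 * (C ^ 4 * μ ^ K)) := by
  have h1 : R.S n ⊆ image (R.F n) (univ.filter fun p => tt p ≤ τ) ∪
      image (R.F n) (univ.filter fun p : V × (Fin n → V) => N2 p.1 (List.ofFn p.2) ≤ K) := by
    intro g hg
    obtain ⟨p, -, rfl⟩ := mem_image.1 hg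
    rw [mem_union]
    by_cases hp : tt p ≤ τ
    · left
      exact mem_image_of_mem _ (mem_filter.2 ⟨mem_univ _, hp⟩)
    · right
      refine mem_image_of_mem _ (mem_filter.2 ⟨mem_univ _, ?_⟩)
      have h2 := N2_le p.1 (List.ofFn p.2)
      rw [List.length_ofFn] at h2
      unfold tt at hp
      omega
  have h2 : (R.s n : ℝ) ≤ ((univ.filter fun p : V × (Fin n → V) => tt p ≤ τ).card : ℝ) +
      ((image (R.F n) (univ.filter fun p : V × (Fin n → V) => N2 p.1 (List.ofFn p.2) ≤ K)).card : ℝ) := by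
    have h3 := (card_le_card h1).trans (card_union_le _ _)
    have h4 : (image (R.F n) (univ.filter fun p => tt p ≤ τ)).card ≤
        (univ.filter fun p : V × (Fin n → V) => tt p ≤ τ).card := card_image_le
    have h5 : R.s n ≤ (univ.filter fun p : V × (Fin n → V) => tt p ≤ τ).card +
        (image (R.F n) (univ.filter fun p : V × (Fin n → V) => N2 p.1 (List.ofFn p.2) ≤ K)).card := by
      unfold s
      omega
    exact_mod_cast h5
  exact h2.trans (add_le_add (card_few n τ z hz hz1) (R.card_many n K C μ hC hμ h))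

end Pool.Agent.K6.H83.Rec
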