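import Pool.Agent.K6.H83.Morse

/-!
# The topological full group of the Morse subshift
-/

set_option autoImplicit false

namespace Pool.Agent.K6.H83

open Topology

/-- `g x = T ^ (n x) x` for a continuous function `n` with values in `ℤ` -/
def InFull {Y : Type*} [TopologicalSpace Y] (T g : Y ≃ₜ Y) : Prop :=
  ∃ n : Y → ℤ, Continuous n ∧ ∀ x, g x = (T ^ n x) x

section full

variable {Y : Type*} [TopologicalSpace Y] (T : Y ≃ₜ Y)

lemma inFull_mul {g h : Y ≃ₜ Y} (h1 : InFull T g) (h2 : InFull T h) : InFull T (g * h) := by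
  obtain ⟨n, hn, hg⟩ := h1
  obtain ⟨m, hm, hh⟩ := h2
  refine ⟨fun x => n (h x) + m x, by fun_prop, fun x => ?_⟩
  rw [zpow_add, Homeomorph.mul_apply, Homeomorph.mul_apply, ← hh, hg]

lemma inFull_one : InFull T 1 := ⟨fun _ => 0, continuous_const, fun x => by simp⟩

lemma inFull_inv {g : Y ≃ₜ Y} (h1 : InFull T g) : InFull T g⁻¹ := by
  obtain ⟨n, hn, hg⟩ := h1
  refine ⟨fun x => - n (g⁻¹ x), by fun_prop, fun x => ?_⟩
  have h1 : g (g⁻¹ x) = x := by rw [← Homeomorph.mul_apply, mul_inv_cancel]; rfl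
  have h2 := hg (g⁻¹ x)
  rw [h1] at h2
  rw [zpow_neg]
  nth_rewrite 3 [h2]
  rw [← Homeomorph.mul_apply, inv_mul_cancel]
  rfl

/-- the topological full group of a homeomorphism `T`: all homeomorphisms `g` such that
`g x = T ^ (n x) x` for a continuous function `n` with values in `ℤ` -/
def fullGroup : Subgroup (Y ≃ₜ Y) where
  carrier := {g | InFull T g}
  mul_mem' := inFull_mul T
  one_mem' := inFull_one T
  inv_mem' := inFull_inv T

end full

lemma shift_mem {A : Type*} (σ : A → List A) (k : ℤ) {x : ℤ → A} (hx : x ∈ subshift σ) :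
    (fun i => x (i + k)) ∈ subshift σ := by
  intro i l
  obtain ⟨a, n, hn, h⟩ := hx (i + k) l
  refine ⟨a, n, hn, ?_⟩
  have h1 : ∀ j : ℤ, i + j + k = i + k + j := fun j => by ring
  simpa only [h1] using h

/-- the translation by `k`, `(x_i) ↦ (x_{i + k})`, on the subshift of a substitution -/
def shiftMap {A : Type*} (σ : A → List A) (k : ℤ) (x : subshift σ) : subshift σ :=
  ⟨fun i => x.1 (i + k), shift_mem σ k x.2⟩

lemma shiftMap_left {A : Type*} (σ : A → List A) :
    Function.LeftInverse (shiftMap σ (-1)) (shiftMap σ 1) := by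
  intro x
  apply Subtype.ext
  funext i
  show x.1 (i + -1 + 1) = x.1 i
  rw [neg_add_cancel_right]

lemma shiftMap_right {A : Type*} (σ : A → List A) :
    Function.RightInverse (shiftMap σ (-1)) (shiftMap σ 1) := by
  intro x
  apply Subtype.ext
  funext i
  show x.1 (i + 1 + -1) = x.1 i
  rw [add_neg_cancel_right]

lemma shiftMap_continuous {A : Type*} [TopologicalSpace A] (σ : A → List A) (k : ℤ) :
    Continuous (shiftMap σ k) :=
  continuous_induced_rng.2
    (continuous_pi fun i => (continuous_apply (i + k)).comp continuous_subtype_val)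

/-- the left shift on the subshift of a substitution -/
def shift {A : Type*} [TopologicalSpace A] (σ : A → List A) : subshift σ ≃ₜ subshift σ where
  toFun := shiftMap σ 1
  invFun := shiftMap σ (-1)
  left_inv := shiftMap_left σ
  right_inv := shiftMap_right σ
  continuous_toFun := shiftMap_continuous σ 1
  continuous_invFun := shiftMap_continuous σ (-1)

section elt

variable {Y : Type*} [TopologicalSpace Y] (T : Y ≃ₜ Y) (n : Y → ℤ) (hn : Continuous n)
  (h : ∀ x, n ((T ^ n x) x) = - n x)

include hn in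
lemma continuous_pow_cocycle : Continuous fun x => (T ^ n x) x := by
  rw [continuous_iff_continuousAt]
  intro x
  have h1 : ∀ᶠ y in 𝓝 x, n y = n x :=
    hn.continuousAt.eventually_mem ((isOpen_discrete {n x}).mem_nhds rfl)
  refine ((T ^ n x).continuous.continuousAt (x := x)).congr ?_
  filter_upwards [h1] with y hy
  rw [hy]

include h in
lemma cocycle_invol (x : Y) : (T ^ n ((T ^ n x) x)) ((T ^ n x) x) = x := by
  rw [h, ← Homeomorph.mul_apply, ← zpow_add, neg_add_cancel, zpow_zero]
  rfl

/-- the element of the full group with the cocycle `n` -/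
def elt : fullGroup T := ⟨{
  toFun := fun x => (T ^ n x) x
  invFun := fun x => (T ^ n x) x
  left_inv := cocycle_invol T n h
  right_inv := cocycle_invol T n h
  continuous_toFun := continuous_pow_cocycle T n hn
  continuous_invFun := continuous_pow_cocycle T n hn }, n, hn, fun _ => rfl⟩

lemma elt_apply (x : Y) : (elt T n hn h).1 x = (T ^ n x) x := rfl

lemma elt_sq (x : Y) : (elt T n hn h).1 ((elt T n hn h).1 x) = x := cocycle_invol T n h x

end elt

/-! ### The generators -/

/-- the shift of the Morse subshift -/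
abbrev T : X ≃ₜ X := shift morse

/-- parity -/
def pr (x : X) : Bool := loc x.1

/-- cocycle of `a` -/
def na (x : X) : ℤ := if pr x then 1 else -1

/-- cocycle of the generators `b`; for `c = true` they act on the edges with equal labels -/
def nb' (c : Bool) (x : X) : ℤ :=
  if pr x then (if (x.1 (-1) == x.1 0) = c then -1 else 0)
  else (if (x.1 0 == x.1 1) = c then 1 else 0)

lemma T_coe (x : X) : (T x).1 = sh 1 x.1 := rfl

lemma Tinv_coe (x : X) : ((T⁻¹) x).1 = sh (-1) x.1 := rfl

lemma T_Tinv (x : X) : T (T⁻¹ x) = x := by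
  rw [← Homeomorph.mul_apply, mul_inv_cancel]
  rfl

lemma Tinv_T (x : X) : T⁻¹ (T x) = x := by
  rw [← Homeomorph.mul_apply, inv_mul_cancel]
  rfl

lemma pr_T (x : X) : pr (T x) = !pr x := by
  unfold pr
  rw [T_coe, loc_sh_one x.2]

lemma pr_Tinv (x : X) : pr (T⁻¹ x) = !pr x := by
  unfold pr
  rw [Tinv_coe, loc_sh_neg x.2]

lemma pr_symm (x : X) : pr (T.symm x) = !pr x := pr_Tinv x

lemma continuous_eval (i : ℤ) : Continuous fun x : X => x.1 i :=
  (continuous_apply i).comp continuous_subtype_val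

lemma continuous_pr : Continuous pr := by
  have h : Continuous fun x : X => (x.1 1, x.1 2, x.1 3, x.1 4) :=
    (continuous_eval 1).prodMk ((continuous_eval 2).prodMk ((continuous_eval 3).prodMk (continuous_eval 4)))
  exact (continuous_of_discreteTopology (f := fun p : Bool × Bool × Bool × Bool =>
    (p.1 == p.2.1) || (p.2.2.1 == p.2.2.2))).comp h

lemma continuous_na : Continuous na :=
  (continuous_of_discreteTopology (f := fun p : Bool => (if p then 1 else -1 : ℤ))).comp continuous_pr

lemma continuous_nb' (c : Bool) : Continuous (nb' c) := by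
  have h : Continuous fun x : X => (pr x, x.1 (-1), x.1 0, x.1 1) :=
    continuous_pr.prodMk ((continuous_eval (-1)).prodMk ((continuous_eval 0).prodMk (continuous_eval 1)))
  exact (continuous_of_discreteTopology (f := fun p : Bool × Bool × Bool × Bool =>
    (if p.1 then (if (p.2.1 == p.2.2.1) = c then -1 else 0)
      else (if (p.2.2.1 == p.2.2.2) = c then 1 else 0) : ℤ))).comp h

lemma na_inv (x : X) : na ((T ^ na x) x) = - na x := by
  cases h : pr x
  · have h1 : na x = -1 := by simp [na, h]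
    rw [h1, zpow_neg_one]
    simp [na, pr_symm, h]
  · have h1 : na x = 1 := by simp [na, h]
    rw [h1, zpow_one]
    simp [na, pr_T, h]

lemma nb'_inv (c : Bool) (x : X) : nb' c ((T ^ nb' c x) x) = - nb' c x := by
  cases h : pr x
  · by_cases hc : (x.1 0 == x.1 1) = c
    · have h1 : nb' c x = 1 := by simp [nb', h, hc]
      rw [h1, zpow_one]
      have h2 : ((T x).1 (-1) == (T x).1 0) = c := hc
      simp [nb', pr_T, h, h2]
    · have h1 : nb' c x = 0 := by simp [nb', h, hc]
      rw [h1, zpow_zero]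
      exact h1
  · by_cases hc : (x.1 (-1) == x.1 0) = c
    · have h1 : nb' c x = -1 := by simp [nb', h, hc]
      rw [h1, zpow_neg_one]
      have h2 : ((T.symm x).1 0 == (T.symm x).1 1) = c := hc
      simp [nb', pr_symm, h, h2]
    · have h1 : nb' c x = 0 := by simp [nb', h, hc]
      rw [h1, zpow_zero]
      exact h1

/-- the generator `a` -/
def ga : fullGroup T := elt T na continuous_na na_inv

/-- the generators `b0` (for `c = true`) and `b1` (for `c = false`) -/
def gb (c : Bool) : fullGroup T := elt T (nb' c) (continuous_nb' c) (nb'_inv c)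

lemma ga_true {x : X} (h : pr x = true) : ga.1 x = T x := by
  unfold ga
  rw [elt_apply]
  simp [na, h]

lemma ga_false {x : X} (h : pr x = false) : ga.1 x = T⁻¹ x := by
  unfold ga
  rw [elt_apply]
  simp [na, h]

lemma gb_true {c : Bool} {x : X} (h : pr x = true) (hc : (x.1 (-1) == x.1 0) = c) : (gb c).1 x = T⁻¹ x := by
  unfold gb
  rw [elt_apply]
  simp [nb', h, hc]

lemma gb_true' {c : Bool} {x : X} (h : pr x = true) (hc : (x.1 (-1) == x.1 0) ≠ c) : (gb c).1 x = x := by
  unfold gb
  rw [elt_apply]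
  simp [nb', h, hc]

lemma gb_false {c : Bool} {x : X} (h : pr x = false) (hc : (x.1 0 == x.1 1) = c) : (gb c).1 x = T x := by
  unfold gb
  rw [elt_apply]
  simp [nb', h, hc]

lemma gb_false' {c : Bool} {x : X} (h : pr x = false) (hc : (x.1 0 == x.1 1) ≠ c) : (gb c).1 x = x := by
  unfold gb
  rw [elt_apply]
  simp [nb', h, hc]

lemma gb_sq (c : Bool) (x : X) : (gb c).1 ((gb c).1 x) = x := elt_sq T _ _ _ x

lemma gb_comm (c : Bool) (x : X) : (gb c).1 ((gb (!c)).1 x) = (gb (!c)).1 ((gb c).1 x) := by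
  -- at each point at most one of them acts
  have key : ∀ (d : Bool) (x : X), (gb d).1 x ≠ x → (gb (!d)).1 x = x ∧ (gb (!d)).1 ((gb d).1 x) = (gb d).1 x := by
    intro d x hd
    cases h : pr x
    · have h1 : (x.1 0 == x.1 1) = d := by
        by_contra hc
        exact hd (gb_false' h hc)
      refine ⟨gb_false' h (by rw [h1]; cases d <;> simp), ?_⟩
      rw [gb_false h h1]
      refine gb_true' (by rw [pr_T, h]; rfl) ?_
      have h2 : ((T x).1 (-1) == (T x).1 0) = d := h1
      rw [h2]
      cases d <;> simp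
    · have h1 : (x.1 (-1) == x.1 0) = d := by
        by_contra hc
        exact hd (gb_true' h hc)
      refine ⟨gb_true' h (by rw [h1]; cases d <;> simp), ?_⟩
      rw [gb_true h h1]
      refine gb_false' (by rw [pr_Tinv, h]; rfl) ?_
      have h2 : ((T⁻¹ x).1 0 == (T⁻¹ x).1 1) = d := by
        rw [Tinv_coe]
        exact h1
      rw [h2]
      cases d <;> simp
  by_cases h1 : (gb c).1 x = x
  · by_cases h2 : (gb (!c)).1 x = x
    · rw [h1, h2, h1]
    · have h3 := key (!c) x h2
      rw [Bool.not_not] at h3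
      rw [h1, h3.2]
  · have h3 := key c x h1
    rw [h3.1, h3.2]

/-! ### The self-similar structure -/

/-- the substitution on the subshift -/
def sgX (z : X) : X := ⟨sg z.1, sg_mem z.2⟩

lemma pr_sgX (z : X) : pr (sgX z) = true := loc_sg z.2

lemma pr_T_sgX (z : X) : pr (T (sgX z)) = false := by rw [pr_T, pr_sgX]; rfl

lemma sgX_T (z : X) : sgX (T z) = T (T (sgX z)) := by
  apply Subtype.ext
  show sg (sh 1 z.1) = sh 1 (sh 1 (sg z.1))
  rw [sg_sh, sh_sh]
  rfl

lemma sgX_Tinv (z : X) : T (sgX (T⁻¹ z)) = T⁻¹ (sgX z) := by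
  have h := sgX_T (T⁻¹ z)
  rw [T_Tinv] at h
  rw [h, Tinv_T]

lemma sgX_inj {z z' : X} (h : sgX z = sgX z') : z = z' := by
  apply Subtype.ext
  rw [← ds_sg z.1, ← ds_sg z'.1]
  exact congrArg ds (congrArg Subtype.val h)

lemma exists_sgX {x : X} (h : pr x = true) : ∃ z, sgX z = x :=
  ⟨⟨ds x.1, ds_mem x.2 h⟩, Subtype.ext (sg_ds x.2 h)⟩

/-- the self-similar coordinates -/
def Φ0 (p : Bool × X) : X := if xor p.1 (pr p.2) then sgX p.2 else T (sgX p.2)

lemma Φ0_bij : Function.Bijective Φ0 := by
  constructor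
  · rintro ⟨i, z⟩ ⟨j, w⟩ h
    simp only [Φ0] at h
    have h1 : xor i (pr z) = xor j (pr w) := by
      cases e1 : xor i (pr z) <;> cases e2 : xor j (pr w)
      · rfl
      · rw [e1, e2] at h
        have := congrArg pr h
        simp [pr_sgX, pr_T_sgX] at this
      · rw [e1, e2] at h
        have := congrArg pr h
        simp [pr_sgX, pr_T_sgX] at this
      · rfl
    have h2 : z = w := by
      rw [h1] at h
      cases e2 : xor j (pr w)
      · rw [e2] at h
        exact sgX_inj (T.injective (by simpa using h))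
      · rw [e2] at h
        exact sgX_inj (by simpa using h)
    subst h2
    have h3 : i = j := by
      revert h1
      cases i <;> cases j <;> cases pr z <;> simp
    rw [h3]
  · intro x
    cases h : pr x
    · obtain ⟨z, hz⟩ := exists_sgX (x := T⁻¹ x) (by rw [pr_Tinv, h]; rfl)
      refine ⟨(pr z, z), ?_⟩
      simp only [Φ0, Bool.xor_self]
      rw [hz]
      exact T_Tinv x
    · obtain ⟨z, hz⟩ := exists_sgX h
      refine ⟨(!pr z, z), ?_⟩
      simp [Φ0, hz]

lemma Φ0_true {i : Bool} {z : X} (h : xor i (pr z) = true) : Φ0 (i, z) = sgX z := by simp [Φ0, h]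

lemma Φ0_false {i : Bool} {z : X} (h : xor i (pr z) = false) : Φ0 (i, z) = T (sgX z) := by simp [Φ0, h]

lemma ga_Φ0 (i : Bool) (z : X) : ga.1 (Φ0 (i, z)) = Φ0 (!i, z) := by
  cases h : xor i (pr z)
  · rw [Φ0_false h, ga_false (pr_T_sgX z), Tinv_T, Φ0_true]
    revert h
    cases i <;> cases pr z <;> simp
  · rw [Φ0_true h, ga_true (pr_sgX z), Φ0_false]
    revert h
    cases i <;> cases pr z <;> simp

lemma sgX_neg (z : X) : ((sgX z).1 (-1) == (sgX z).1 0) = (z.1 (-1) != z.1 0) := by
  have h1 : (sgX z).1 (-1) = !z.1 (-1) := rfl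
  have h2 : (sgX z).1 0 = z.1 0 := rfl
  rw [h1, h2]
  cases z.1 (-1) <;> cases z.1 0 <;> rfl

lemma T_sgX_zero (z : X) : ((T (sgX z)).1 0 == (T (sgX z)).1 1) = (z.1 0 != z.1 1) := by
  have h1 : (T (sgX z)).1 0 = !z.1 0 := rfl
  have h2 : (T (sgX z)).1 1 = z.1 1 := rfl
  rw [h1, h2]
  cases z.1 0 <;> cases z.1 1 <;> rfl

lemma ne_of_pr_true {z : X} (h : pr z = true) : z.1 0 ≠ z.1 1 := by
  have := loc_true z.2 h 0
  simpa using this

lemma ne_of_pr_false {z : X} (h : pr z = false) : z.1 (-1) ≠ z.1 0 := by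
  have := loc_false z.2 h (-1)
  norm_num at this
  exact this

lemma gb_Φ0_false (c : Bool) (z : X) : (gb c).1 (Φ0 (false, z)) = Φ0 (false, (gb (!c)).1 z) := by
  cases h : pr z
  · rw [Φ0_false (by simp [h])]
    by_cases hc : (z.1 0 == z.1 1) = !c
    · rw [gb_false (pr_T_sgX z) (by rw [T_sgX_zero]; cases c <;> simp_all), gb_false h hc,
        Φ0_true (by simp [pr_T, h]), sgX_T]
    · rw [gb_false' (pr_T_sgX z) (by rw [T_sgX_zero]; cases c <;> simp_all), gb_false' h hc,
        Φ0_false (by simp [h])]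
  · rw [Φ0_true (by simp [h])]
    by_cases hc : (z.1 (-1) == z.1 0) = !c
    · rw [gb_true (pr_sgX z) (by rw [sgX_neg]; cases c <;> simp_all), gb_true h hc,
        Φ0_false (by simp [pr_symm, h]), sgX_Tinv]
    · rw [gb_true' (pr_sgX z) (by rw [sgX_neg]; cases c <;> simp_all), gb_true' h hc,
        Φ0_true (by simp [h])]

lemma gb0_Φ0_true (z : X) : (gb true).1 (Φ0 (true, z)) = Φ0 (true, ga.1 z) := by
  cases h : pr z
  · have h1 := ne_of_pr_false h
    rw [Φ0_true (by simp [h]), gb_true (pr_sgX z) (by rw [sgX_neg]; simpa using h1), ga_false h,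
      Φ0_false (by simp [pr_symm, h]), sgX_Tinv]
  · have h1 := ne_of_pr_true h
    rw [Φ0_false (by simp [h]), gb_false (pr_T_sgX z) (by rw [T_sgX_zero]; simpa using h1), ga_true h,
      Φ0_true (by simp [pr_T, h]), sgX_T]

lemma gb1_Φ0_true (z : X) : (gb false).1 (Φ0 (true, z)) = Φ0 (true, z) := by
  cases h : pr z
  · have h1 := ne_of_pr_false h
    rw [Φ0_true (by simp [h]), gb_true' (pr_sgX z) (by rw [sgX_neg]; simpa using h1)]
  · have h1 := ne_of_pr_true h
    rw [Φ0_false (by simp [h]), gb_false' (pr_T_sgX z) (by rw [T_sgX_zero]; simpa using h1)]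

/-- the permutation of a homeomorphism -/
def toPerm : (X ≃ₜ X) →* Equiv.Perm X where
  toFun g := g.toEquiv
  map_one' := rfl
  map_mul' _ _ := rfl

lemma toPerm_injective : Function.Injective toPerm := fun _ _ h => Homeomorph.toEquiv_injective h

/-- the wreath recursion -/
noncomputable def R : Rec X where
  Φ := Equiv.ofBijective Φ0 Φ0_bij
  a := toPerm ga.1
  b0 := toPerm (gb true).1
  b1 := toPerm (gb false).1
  ha := ga_Φ0
  h00 := gb_Φ0_false true
  h01 := gb0_Φ0_true
  h10 := gb_Φ0_false false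
  h11 := gb1_Φ0_true
  sq0 := Equiv.ext fun x => gb_sq true x
  sq1 := Equiv.ext fun x => gb_sq false x
  comm := Equiv.ext fun x => gb_comm true x

/-- the subgroup generated by `a`, `b0`, `b1` -/
def H : Subgroup (fullGroup T) := Subgroup.closure {ga, gb true, gb false}

lemma H_fg : H.FG := (Subgroup.fg_iff _).2 ⟨{ga, gb true, gb false}, rfl, by simp⟩

/-! ### The Morse subshift is not empty -/

/-- the Thue-Morse sequence up to `3` -/
def c4 (r : ℕ) : Bool := (r == 1) || (r == 2)

lemma t_four (q r : ℕ) (hr : r < 4) : t (4 * q + r) = xor (t q) (c4 r) := by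
  interval_cases r
  · rw [show 4 * q + 0 = 2 * (2 * q) by ring, t_even, t_even]
    simp [c4]
  · rw [show 4 * q + 1 = 2 * (2 * q) + 1 by ring, t_odd, t_even]
    simp [c4]
  · rw [show 4 * q + 2 = 2 * (2 * q + 1) by ring, t_even, t_odd]
    simp [c4]
  · rw [show 4 * q + 3 = 2 * (2 * q + 1) + 1 by ring, t_odd, t_odd]
    simp [c4]

lemma t_pow_add (n : ℕ) : ∀ k < 4 ^ n, t (4 ^ n + k) = !t k := by
  induction n with
  | zero =>
    intro k hk
    have hk0 : k = 0 := by simpa using hk
    subst hk0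
    rw [show 4 ^ 0 + 0 = 2 * 0 + 1 by norm_num, t_odd]
  | succ n ih =>
    intro k hk
    have h1 : 4 ^ (n + 1) + k = 4 * (4 ^ n + k / 4) + k % 4 := by rw [pow_succ]; omega
    have h2 : k = 4 * (k / 4) + k % 4 := by omega
    rw [h1, t_four _ _ (Nat.mod_lt _ (by norm_num)), ih (k / 4) (by rw [pow_succ] at hk; omega)]
    nth_rewrite 3 [h2]
    rw [t_four _ _ (Nat.mod_lt _ (by norm_num))]
    simp

lemma t_pow_sub (n : ℕ) : ∀ k < 4 ^ n, t (4 ^ n - 1 - k) = t k := by
  induction n with
  | zero =>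
    intro k hk
    have hk0 : k = 0 := by simpa using hk
    subst hk0
    rfl
  | succ n ih =>
    intro k hk
    rw [pow_succ] at hk
    have h1 : 4 ^ (n + 1) - 1 - k = 4 * (4 ^ n - 1 - k / 4) + (3 - k % 4) := by rw [pow_succ]; omega
    have h2 : k = 4 * (k / 4) + k % 4 := by omega
    rw [h1, t_four _ _ (by omega), ih (k / 4) (by omega)]
    nth_rewrite 3 [h2]
    rw [t_four _ _ (Nat.mod_lt _ (by norm_num))]
    have h3 : k % 4 < 4 := Nat.mod_lt _ (by norm_num)
    congr 1
    interval_cases k % 4 <;> rfl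

/-- a point of the Morse subshift -/
def pt (i : ℤ) : Bool := if 0 ≤ i then !t i.toNat else t (-1 - i).toNat

lemma pt_eq (n : ℕ) (i : ℤ) (h1 : -(4 ^ n : ℕ) ≤ i) (h2 : i < (4 ^ n : ℕ)) : pt i = t ((4 ^ n : ℕ) + i).toNat := by
  unfold pt
  by_cases hi : 0 ≤ i
  · rw [if_pos hi]
    have h3 : ((4 ^ n : ℕ) + i).toNat = 4 ^ n + i.toNat := by omega
    rw [h3, t_pow_add n _ (by omega)]
  · rw [if_neg hi]
    have h3 : ((4 ^ n : ℕ) + i).toNat = 4 ^ n - 1 - (-1 - i).toNat := by omega
    rw [h3, t_pow_sub n _ (by omega)]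

lemma pt_mem : pt ∈ X := by
  rw [mem_X]
  intro i l
  have h1 : i.natAbs + l < 4 ^ (i.natAbs + l) := Nat.lt_pow_self (by norm_num)
  refine ⟨false, ((4 ^ (i.natAbs + l) : ℕ) + i).toNat, fun j hj => ?_⟩
  rw [pt_eq (i.natAbs + l) _ (by omega) (by omega)]
  have h2 : (((4 ^ (i.natAbs + l) : ℕ) : ℤ) + (i + j)).toNat =
      (((4 ^ (i.natAbs + l) : ℕ) : ℤ) + i).toNat + j := by omega
  rw [h2]
  simp

instance : Nonempty X := ⟨⟨pt, pt_mem⟩⟩

/-- **Theorem.** The subgroup `H` has intermediate growth. -/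
theorem intermediateGrowth_H : IntermediateGrowth H := by
  have hmem : ∀ g ∈ ({ga, gb true, gb false} : Set (fullGroup T)), g ∈ H := fun g hg =>
    Subgroup.subset_closure hg
  refine R.intermediateGrowth ((toPerm.comp (fullGroup T).subtype).comp H.subtype) ?_
    ⟨ga, hmem _ (by simp)⟩ ⟨gb true, hmem _ (by simp)⟩ ⟨gb false, hmem _ (by simp)⟩ rfl rfl rfl ?_
  · exact (toPerm_injective.comp Subtype.val_injective).comp Subtype.val_injective
  · have h := Subgroup.closure_closure_coe_preimage (k := ({ga, gb true, gb false} : Set (fullGroup T)))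
    refine Eq.trans (congrArg Subgroup.closure ?_) h
    ext g
    constructor
    · rintro (h | h | h)
      · exact Or.inl (congrArg Subtype.val h)
      · exact Or.inr (Or.inl (congrArg Subtype.val h))
      · exact Or.inr (Or.inr (congrArg Subtype.val h))
    · rintro (h | h | h)
      · exact Or.inl (Subtype.ext h)
      · exact Or.inr (Or.inl (Subtype.ext h))
      · exact Or.inr (Or.inr (Subtype.ext h))

end Pool.Agent.K6.H83
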