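import Mathlib

/-!
# A recursive inequality with subexponential solutions only
-/

set_option autoImplicit false

namespace Pool.Agent.K6.H83

open Real

lemma poly_le_exp (δ : ℝ) (hδ : 0 < δ) (n : ℕ) :
    ((n : ℝ) + 3) ^ 4 ≤ (4 / δ) ^ 4 * exp (3 * δ) * exp (δ * n) := by
  have h1 : δ * (n + 3) / 4 ≤ exp (δ * (n + 3) / 4) := by
    have := add_one_le_exp (δ * (n + 3) / 4)
    linarith
  have h2 : 0 ≤ δ * ((n : ℝ) + 3) / 4 := by positivity
  have h3 := pow_le_pow_left₀ h2 h1 4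
  rw [← exp_nat_mul] at h3
  have h4 : (4 : ℕ) * (δ * ((n : ℝ) + 3) / 4) = 3 * δ + δ * n := by
    push_cast
    ring
  rw [h4, exp_add] at h3
  have h5 : ((n : ℝ) + 3) ^ 4 = (4 / δ) ^ 4 * (δ * (n + 3) / 4) ^ 4 := by
    field_simp
  rw [h5, mul_assoc]
  exact mul_le_mul_of_nonneg_left h3 (by positivity)

theorem subexp (s : ℕ → ℝ) (h4 : ∀ n, s n ≤ 4 * 4 ^ n)
    (hb : ∀ n K τ : ℕ, 2 * n + 2 ≤ 2 * K + τ → ∀ z : ℝ, 0 < z → z ≤ 1 → ∀ C μ : ℝ, 0 ≤ C → 1 ≤ μ →
      (∀ k, s k ≤ C * μ ^ k) →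
      s n ≤ (1 + 3 * z) ^ (n + 1) / z ^ τ + 4 * ((K + 1) ^ 4 * (C ^ 4 * μ ^ K))) :
    ∀ c : ℝ, 0 < c → ∃ C : ℝ, 0 ≤ C ∧ ∀ n : ℕ, s n ≤ C * exp (c * n) := by
  set E : Set ℝ := {c | 0 < c ∧ ∃ C : ℝ, 0 ≤ C ∧ ∀ n : ℕ, s n ≤ C * exp (c * n)} with hE
  have hne : E.Nonempty := by
    refine ⟨log 4, log_pos (by norm_num), 4, by norm_num, fun n => ?_⟩
    rw [mul_comm (log 4), ← log_rpow (by norm_num), exp_log (by positivity), rpow_natCast]
    exact h4 n
  have hbdd : BddBelow E := ⟨0, fun c hc => hc.1.le⟩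
  have hup : ∀ c ∈ E, ∀ d, c ≤ d → d ∈ E := by
    rintro c ⟨hc, C, hC, h⟩ d hd
    refine ⟨hc.trans_le hd, C, hC, fun n => (h n).trans ?_⟩
    refine mul_le_mul_of_nonneg_left (exp_le_exp.2 ?_) hC
    exact mul_le_mul_of_nonneg_right hd (Nat.cast_nonneg n)
  set L := sInf E with hL
  have hL0 : 0 ≤ L := le_csInf hne fun c hc => hc.1.le
  rcases hL0.eq_or_lt with h0 | hpos
  · intro c hc
    obtain ⟨d, hd, hdc⟩ := exists_lt_of_csInf_lt hne (show sInf E < c by rw [← hL, ← h0]; exact hc)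
    exact (hup d hd c hdc.le).2
  · exfalso
    -- the choice of z
    obtain ⟨z, hz, hz1, hz2⟩ : ∃ z : ℝ, 0 < z ∧ z ≤ 1 ∧ 1 + 3 * z ≤ exp (L / 4) := by
      have h1 := add_one_le_exp (L / 4)
      refine ⟨min 1 (L / 12), by positivity, min_le_left _ _, ?_⟩
      have := min_le_right (1 : ℝ) (L / 12)
      linarith
    -- the choice of ε
    obtain ⟨ε, hε, hε1, hε2⟩ : ∃ ε : ℝ, 0 < ε ∧ ε < 1 ∧ ε * (-log z) ≤ L / 4 := by
      have hlz : 0 ≤ -log z := by
        have := log_nonpos hz.le hz1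
        linarith
      have h1 : 0 < 1 - log z := by linarith
      refine ⟨min (1 / 2) (L / 4 / (1 - log z)), lt_min (by norm_num) (by positivity),
        lt_of_le_of_lt (min_le_left _ _) (by norm_num), ?_⟩
      calc min (1 / 2) (L / 4 / (1 - log z)) * (-log z) ≤ (L / 4 / (1 - log z)) * (-log z) :=
            mul_le_mul_of_nonneg_right (min_le_right _ _) hlz
        _ ≤ (L / 4 / (1 - log z)) * (1 - log z) :=
            mul_le_mul_of_nonneg_left (by linarith) (by positivity)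
        _ = L / 4 := by field_simp
    -- the choice of c
    obtain ⟨c, ⟨hc0, C, hC, hcC⟩, hcL⟩ := exists_lt_of_csInf_lt hne
      (show sInf E < L * (1 + ε / 4) by rw [← hL]; nlinarith)
    have hμ : 1 ≤ exp c := one_le_exp hc0.le
    have hμk : ∀ k, s k ≤ C * exp c ^ k := by
      intro k
      rw [← exp_nat_mul, mul_comm (k : ℝ)]
      exact hcC k
    have hkey : ∀ n : ℕ, s n ≤ exp (L / 4) * exp (L / 2 * n) +
        4 * (((n : ℝ) + 3) ^ 4 * (C ^ 4 * (exp (2 * c) * exp (L * (1 - ε / 4) * n)))) := by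
      intro n
      set τ := ⌊ε * n⌋₊ with hτ
      have hτ1 : (τ : ℝ) ≤ ε * n := Nat.floor_le (by positivity)
      have hτ2 : ε * n < τ + 1 := Nat.lt_floor_add_one _
      have hτn : τ ≤ n := by
        have : (τ : ℝ) ≤ n := hτ1.trans (by nlinarith [Nat.cast_nonneg (α := ℝ) n])
        exact_mod_cast this
      have hK : 2 * n + 2 ≤ 2 * (n + 1 - τ / 2) + τ := by omega
      have hKn : n + 1 - τ / 2 ≤ n + 1 := Nat.sub_le _ _
      have hKr : ((n + 1 - τ / 2 : ℕ) : ℝ) ≤ (1 - ε / 2) * n + 2 := by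
        have h1 : 2 * (n + 1 - τ / 2) + τ ≤ 2 * n + 3 := by omega
        have h2 : 2 * ((n + 1 - τ / 2 : ℕ) : ℝ) + τ ≤ 2 * n + 3 := by exact_mod_cast h1
        linarith
      refine (hb n (n + 1 - τ / 2) τ hK z hz hz1 C (exp c) hC hμ hμk).trans (add_le_add ?_ ?_)
      · rw [div_le_iff₀ (by positivity)]
        have h1 : (1 + 3 * z) ^ (n + 1) ≤ exp (L / 4) * exp (L / 4 * n) := by
          calc (1 + 3 * z) ^ (n + 1) ≤ exp (L / 4) ^ (n + 1) :=
                pow_le_pow_left₀ (by positivity) hz2 _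
            _ = exp (L / 4) * exp (L / 4 * n) := by
                rw [pow_succ', ← exp_nat_mul, mul_comm (n : ℝ)]
        refine h1.trans ?_
        rw [mul_assoc]
        refine mul_le_mul_of_nonneg_left ?_ (exp_pos _).le
        have h2 : z ^ τ = exp (τ * log z) := by
          rw [mul_comm, exp_mul, exp_log hz, rpow_natCast]
        rw [h2, ← exp_add, exp_le_exp]
        have h3 : (τ : ℝ) * (-log z) ≤ L / 4 * n := by
          have hlz : 0 ≤ -log z := by
            have := log_nonpos hz.le hz1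
            linarith
          calc (τ : ℝ) * (-log z) ≤ (ε * n) * (-log z) := mul_le_mul_of_nonneg_right hτ1 hlz
            _ = (ε * (-log z)) * n := by ring
            _ ≤ L / 4 * n := mul_le_mul_of_nonneg_right hε2 (Nat.cast_nonneg n)
        linarith
      · refine mul_le_mul_of_nonneg_left ?_ (by norm_num)
        have h1 : ((n + 1 - τ / 2 : ℕ) : ℝ) + 1 ≤ n + 3 := by
          have : ((n + 1 - τ / 2 : ℕ) : ℝ) ≤ ((n + 1 : ℕ) : ℝ) := by exact_mod_cast hKn
          push_cast at this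
          linarith
        refine mul_le_mul (pow_le_pow_left₀ (by positivity) h1 4) ?_ (by positivity) (by positivity)
        refine mul_le_mul_of_nonneg_left ?_ (by positivity)
        rw [← exp_nat_mul, ← exp_add, exp_le_exp]
        have hn : (0 : ℝ) ≤ n := Nat.cast_nonneg n
        calc ((n + 1 - τ / 2 : ℕ) : ℝ) * c ≤ ((1 - ε / 2) * n + 2) * c :=
              mul_le_mul_of_nonneg_right hKr hc0.le
          _ = 2 * c + (1 - ε / 2) * n * c := by ring
          _ ≤ 2 * c + (1 - ε / 2) * n * (L * (1 + ε / 4)) := by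
              refine add_le_add le_rfl (mul_le_mul_of_nonneg_left hcL.le ?_)
              refine mul_nonneg (by linarith) hn
          _ ≤ 2 * c + L * (1 - ε / 4) * n := by
              have : 0 ≤ L * n * (ε ^ 2 / 8) := by positivity
              nlinarith
    -- conclusion
    have hmem : L * (1 - ε / 8) ∈ E := by
      refine ⟨by nlinarith, ?_⟩
      set δ := L * (ε / 8) with hδ
      have hδ0 : 0 < δ := by positivity
      refine ⟨exp (L / 4) + 4 * (((4 / δ) ^ 4 * exp (3 * δ)) * (C ^ 4 * exp (2 * c))), by positivity, fun n => ?_⟩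
      refine (hkey n).trans ?_
      rw [add_mul]
      have hn : (0 : ℝ) ≤ n := Nat.cast_nonneg n
      refine add_le_add ?_ ?_
      · refine mul_le_mul_of_nonneg_left (exp_le_exp.2 ?_) (exp_pos _).le
        refine mul_le_mul_of_nonneg_right ?_ hn
        nlinarith
      · have h1 := poly_le_exp δ hδ0 n
        have h2 : exp (L * (1 - ε / 8) * n) = exp (δ * n) * exp (L * (1 - ε / 4) * n) := by
          rw [← exp_add, hδ]
          congr 1
          ring
        rw [h2]
        calc 4 * (((n : ℝ) + 3) ^ 4 * (C ^ 4 * (exp (2 * c) * exp (L * (1 - ε / 4) * n))))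
            ≤ 4 * (((4 / δ) ^ 4 * exp (3 * δ) * exp (δ * n)) * (C ^ 4 * (exp (2 * c) * exp (L * (1 - ε / 4) * n)))) := by
              refine mul_le_mul_of_nonneg_left (mul_le_mul_of_nonneg_right h1 (by positivity)) (by norm_num)
          _ = _ := by ring
    have h9 := csInf_le hbdd hmem
    rw [← hL] at h9
    nlinarith

end Pool.Agent.K6.H83
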