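import Pool.Agent.K6.H83.Count
import Pool.Agent.K6.H83.Subexp

/-!
# Intermediate growth of a group with the wreath recursion
-/

set_option autoImplicit false

namespace Pool.Agent.K6.H83

open Filter

/-- the products of at most `r` elements of `S` and their inverses -/
def ball {G : Type*} [Group G] (S : Set G) (r : ℕ) : Set G :=
  {g | ∃ l : List G, l.length ≤ r ∧ (∀ x ∈ l, x ∈ S ∨ x⁻¹ ∈ S) ∧ l.prod = g}

/-- for every finite generating set `S` the number of the elements of word length at most `r` grows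
faster than every polynomial and slower than every exponential function -/
def IntermediateGrowth (G : Type*) [Group G] : Prop :=
  ∀ S : Set G, S.Finite → Subgroup.closure S = ⊤ →
    (∀ d : ℕ, ∀ᶠ r : ℕ in atTop, (r : ℝ) ^ d < ((ball S r).ncard : ℝ)) ∧
    (∀ c : ℝ, 0 < c → ∀ᶠ r : ℕ in atTop, ((ball S r).ncard : ℝ) < Real.exp (c * r))

/-- `G` contains a finitely generated subgroup of intermediate growth -/
def ContainsIntermediateGrowth (G : Type*) [Group G] : Prop :=
  ∃ H : Subgroup G, H.FG ∧ IntermediateGrowth H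

section basic

variable {G : Type*} [Group G]

lemma one_mem_ball (S : Set G) (r : ℕ) : (1 : G) ∈ ball S r := ⟨[], by simp, by simp, rfl⟩

lemma ball_mul {S : Set G} {r t : ℕ} {g h : G} (hg : g ∈ ball S r) (hh : h ∈ ball S t) :
    g * h ∈ ball S (r + t) := by
  obtain ⟨l, h1, h2, rfl⟩ := hg
  obtain ⟨l', h1', h2', rfl⟩ := hh
  refine ⟨l ++ l', by rw [List.length_append]; omega, fun x hx => ?_, by simp⟩
  rcases List.mem_append.1 hx with h | h
  · exact h2 x h
  · exact h2' x h

lemma ball_inv {S : Set G} {r : ℕ} {g : G} (hg : g ∈ ball S r) : g⁻¹ ∈ ball S r := by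
  obtain ⟨l, h1, h2, rfl⟩ := hg
  refine ⟨(l.map fun x => x⁻¹).reverse, by simpa using h1, fun x hx => ?_, (List.prod_inv_reverse l).symm⟩
  rw [List.mem_reverse, List.mem_map] at hx
  obtain ⟨y, hy, rfl⟩ := hx
  rw [inv_inv]
  exact (h2 y hy).symm

lemma ball_mono {S : Set G} {r t : ℕ} (h : r ≤ t) : ball S r ⊆ ball S t := by
  rintro g ⟨l, h1, h2, h3⟩
  exact ⟨l, h1.trans h, h2, h3⟩

lemma ball_ball {S S' : Set G} {m : ℕ} (h : S ⊆ ball S' m) (r : ℕ) : ball S r ⊆ ball S' (m * r) := by
  rintro g ⟨l, h1, h2, rfl⟩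
  refine ball_mono (Nat.mul_le_mul_left m h1) ?_
  clear h1
  induction l with
  | nil => exact one_mem_ball _ _
  | cons x l ih =>
    rw [List.prod_cons, List.length_cons, Nat.mul_succ, Nat.add_comm]
    refine ball_mul ?_ (ih fun y hy => h2 y (List.mem_cons_of_mem _ hy))
    rcases h2 x List.mem_cons_self with h3 | h3
    · exact h h3
    · have := ball_inv (h h3)
      rwa [inv_inv] at this

lemma ball_finite {S : Set G} (hS : S.Finite) (r : ℕ) : (ball S r).Finite := by
  induction r with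
  | zero =>
    refine (Set.finite_singleton (1 : G)).subset ?_
    rintro g ⟨l, h1, -, rfl⟩
    rw [Nat.le_zero, List.length_eq_zero_iff] at h1
    simp [h1]
  | succ r ih =>
    have hS' : (S ∪ S⁻¹).Finite := hS.union hS.inv
    refine ((Set.finite_singleton (1 : G)).union (Set.Finite.image2 (fun x y => x * y) hS' ih)).subset ?_
    rintro g ⟨l, h1, h2, rfl⟩
    cases l with
    | nil => left; simp
    | cons x l =>
      right
      refine ⟨x, ?_, l.prod, ⟨l, ?_, fun y hy => h2 y (List.mem_cons_of_mem _ hy), rfl⟩, by simp⟩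
      · exact h2 x List.mem_cons_self
      · rw [List.length_cons] at h1
        omega

lemma exists_ball {S : Set G} (hS : Subgroup.closure S = ⊤) (g : G) : ∃ m, g ∈ ball S m := by
  have hg : g ∈ Subgroup.closure S := by rw [hS]; trivial
  induction hg using Subgroup.closure_induction with
  | mem x hx => exact ⟨1, [x], by simp, by simpa using Or.inl hx, by simp⟩
  | one => exact ⟨0, one_mem_ball _ _⟩
  | mul x y _ _ hx hy =>
    obtain ⟨m, hm⟩ := hx
    obtain ⟨n, hn⟩ := hy
    exact ⟨m + n, ball_mul hm hn⟩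
  | inv x _ hx =>
    obtain ⟨m, hm⟩ := hx
    exact ⟨m, ball_inv hm⟩

lemma exists_ball_finite {S T : Set G} (hS : Subgroup.closure S = ⊤) (hT : T.Finite) :
    ∃ m, 1 ≤ m ∧ T ⊆ ball S m := by
  induction T, hT using Set.Finite.induction_on with
  | empty => exact ⟨1, le_rfl, by simp⟩
  | insert _ _ ih =>
    rename_i x T _ _
    obtain ⟨m, hm, hT⟩ := ih
    obtain ⟨n, hn⟩ := exists_ball hS x
    refine ⟨m + n, by omega, Set.insert_subset (ball_mono (by omega) hn) (hT.trans (ball_mono (by omega)))⟩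

end basic

namespace Rec

variable {X : Type*} (R : Rec X)

/-- the generators -/
def gen : Fin 3 → Equiv.Perm X := ![R.a, R.b0, R.b1]

/-- product of generators -/
def W (w : List (Fin 3)) : Equiv.Perm X := (w.map R.gen).prod

lemma W_nil : R.W [] = 1 := rfl

lemma W_cons (i : Fin 3) (w : List (Fin 3)) : R.W (i :: w) = R.gen i * R.W w := by simp [W]

lemma W_append (w w' : List (Fin 3)) : R.W (w ++ w') = R.W w * R.W w' := by simp [W]

/-- the ball of radius `r` -/
def B (r : ℕ) : Set (Equiv.Perm X) := {g | ∃ w : List (Fin 3), w.length ≤ r ∧ R.W w = g}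

lemma exists_Ev (w : List (Fin 3)) : ∃ (u : V) (l : List V), l.length ≤ w.length ∧ R.W w = R.Ev u l := by
  induction w using List.reverseRecOn with
  | nil => exact ⟨(false, false), [], by simp, by simp [W_nil, Ev, vp_one]⟩
  | append_singleton w i ih =>
    obtain ⟨u, l, h1, h2⟩ := ih
    rw [W_append, h2]
    have h3 : ∀ i, R.W [i] = R.gen i := fun i => by simp [W]
    rw [h3]
    fin_cases i
    · refine ⟨(false, false), u :: l, by simpa using h1, ?_⟩
      rw [Ev_mul_a]
      rfl
    · refine ⟨vm u (true, false), l, by rw [List.length_append]; omega, ?_⟩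
      rw [Ev_mul_vp]
      simp [gen, vp]
    · refine ⟨vm u (false, true), l, by rw [List.length_append]; omega, ?_⟩
      rw [Ev_mul_vp]
      simp [gen, vp]

open Classical in
lemma B_subset (r : ℕ) : R.B r ⊆ ((Finset.range (r + 1)).biUnion fun k => R.S k : Finset (Equiv.Perm X)) := by
  rintro g ⟨w, h1, rfl⟩
  obtain ⟨u, l, h2, h3⟩ := R.exists_Ev w
  rw [Finset.mem_coe, Finset.mem_biUnion]
  refine ⟨l.length, Finset.mem_range.2 (by omega), ?_⟩
  rw [h3]
  exact R.Ev_mem_S u l

lemma B_finite (r : ℕ) : (R.B r).Finite := (Finset.finite_toSet _).subset (R.B_subset r)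

lemma B_ncard_le (r : ℕ) : (R.B r).ncard ≤ ∑ k ∈ Finset.range (r + 1), R.s k := by
  classical
  refine (Set.ncard_le_ncard (R.B_subset r) (Finset.finite_toSet _)).trans ?_
  rw [Set.ncard_coe_finset]
  exact Finset.card_biUnion_le

/-- upper bound -/
lemma B_subexp (c : ℝ) (hc : 0 < c) : ∃ C : ℝ, 0 ≤ C ∧ ∀ r : ℕ, ((R.B r).ncard : ℝ) ≤ C * Real.exp (c * r) := by
  obtain ⟨C, hC, h⟩ := subexp (fun n => (R.s n : ℝ)) (fun n => by
    have := R.s_le n
    have h2 : (R.s n : ℝ) ≤ 4 ^ (n + 1) := by exact_mod_cast this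
    rw [pow_succ'] at h2
    exact h2) (fun n K τ hK z hz hz1 C μ hC hμ h => R.s_bound n K τ hK z hz hz1 C μ hC hμ h) (c / 2) (by positivity)
  refine ⟨C * (2 / c * Real.exp (c / 2)), by positivity, fun r => ?_⟩
  have h1 : ((R.B r).ncard : ℝ) ≤ ∑ k ∈ Finset.range (r + 1), (R.s k : ℝ) := by
    exact_mod_cast R.B_ncard_le r
  have h2 : ∑ k ∈ Finset.range (r + 1), (R.s k : ℝ) ≤ (r + 1) * (C * Real.exp (c / 2 * r)) := by
    have h3 : ∀ k ∈ Finset.range (r + 1), (R.s k : ℝ) ≤ C * Real.exp (c / 2 * r) := by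
      intro k hk
      refine (h k).trans (mul_le_mul_of_nonneg_left (Real.exp_le_exp.2 ?_) hC)
      refine mul_le_mul_of_nonneg_left ?_ (by positivity)
      have := Finset.mem_range.1 hk
      exact_mod_cast (by omega : k ≤ r)
    refine (Finset.sum_le_card_nsmul _ _ _ h3).trans (le_of_eq ?_)
    rw [Finset.card_range, nsmul_eq_mul]
    push_cast
    ring
  refine h1.trans (h2.trans ?_)
  have h4 : (r : ℝ) + 1 ≤ 2 / c * (Real.exp (c / 2) * Real.exp (c / 2 * r)) := by
    rw [← Real.exp_add]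
    have h5 := Real.add_one_le_exp (c / 2 + c / 2 * r)
    have h6 : (r : ℝ) + 1 = 2 / c * (c / 2 + c / 2 * r) := by
      field_simp
      ring
    rw [h6]
    refine mul_le_mul_of_nonneg_left (by linarith) (by positivity)
  calc ((r : ℝ) + 1) * (C * Real.exp (c / 2 * r)) ≤
      (2 / c * (Real.exp (c / 2) * Real.exp (c / 2 * r))) * (C * Real.exp (c / 2 * r)) :=
        mul_le_mul_of_nonneg_right h4 (by positivity)
    _ = C * (2 / c * Real.exp (c / 2)) * (Real.exp (c / 2 * r) * Real.exp (c / 2 * r)) := by ring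
    _ = C * (2 / c * Real.exp (c / 2)) * Real.exp (c * r) := by
        rw [← Real.exp_add]
        congr 2
        ring

/-! ### The lower bound -/

/-- lifting of a letter to the first coordinate -/
def lift : Fin 3 → List (Fin 3) := ![[0, 1, 0], [2], [1]]

/-- the second coordinate of the lift -/
def snd : Fin 3 → Equiv.Perm X := ![R.b1, 1, R.a]

/-- the lift of a word -/
def Lw (w : List (Fin 3)) : List (Fin 3) := w.flatMap lift

/-- the second coordinate of the lift -/
def Ws (w : List (Fin 3)) : Equiv.Perm X := (w.map R.snd).prod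

lemma Lw_length (w : List (Fin 3)) : (Lw w).length ≤ 3 * w.length := by
  induction w with
  | nil => simp [Lw]
  | cons i w ih =>
    have : (lift i).length ≤ 3 := by fin_cases i <;> simp [lift]
    unfold Lw at ih ⊢
    rw [List.flatMap_cons, List.length_append, List.length_cons]
    omega

lemma W_lift_false (i : Fin 3) (x : X) : R.W (lift i) (R.Φ (false, x)) = R.Φ (false, R.gen i x) := by
  fin_cases i <;> simp [lift, W, gen, R.ha, R.h01, R.h10, R.h00]

lemma W_lift_true (i : Fin 3) (x : X) : R.W (lift i) (R.Φ (true, x)) = R.Φ (true, R.snd i x) := by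
  fin_cases i <;> simp [lift, W, gen, snd, R.ha, R.h01, R.h11, R.h00]

lemma W_Lw_false (w : List (Fin 3)) : ∀ x : X, R.W (Lw w) (R.Φ (false, x)) = R.Φ (false, R.W w x) := by
  induction w with
  | nil => intro x; simp [Lw, W]
  | cons i w ih =>
    intro x
    have h : Lw (i :: w) = lift i ++ Lw w := by simp [Lw]
    rw [h, W_append, Equiv.Perm.mul_apply, ih, W_lift_false, W_cons, Equiv.Perm.mul_apply]

lemma W_Lw_true (w : List (Fin 3)) : ∀ x : X, R.W (Lw w) (R.Φ (true, x)) = R.Φ (true, R.Ws w x) := by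
  induction w with
  | nil => intro x; simp [Lw, W, Ws]
  | cons i w ih =>
    intro x
    have h : Lw (i :: w) = lift i ++ Lw w := by simp [Lw]
    rw [h, W_append, Equiv.Perm.mul_apply, ih, W_lift_true]
    simp [Ws]

lemma ab_sq (i : Bool) (x : X) : ((R.a * R.b1) ^ 2) (R.Φ (i, x)) = R.Φ (i, R.b0 x) := by
  cases i <;> simp [pow_two, R.ha, R.h10, R.h11]

lemma ab_four : (R.a * R.b1) ^ 4 = 1 := by
  ext x
  obtain ⟨⟨i, y⟩, rfl⟩ := R.Φ.surjective x
  rw [show 4 = 2 + 2 from rfl, pow_add, Equiv.Perm.mul_apply, ab_sq, ab_sq]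
  have := R.sq0
  rw [← Equiv.Perm.mul_apply, this]
  simp

/-- a finite set of permutations -/
def D : Set (Equiv.Perm X) := {g | ∃ (n : ℕ) (b : Bool), g = (R.a * R.b1) ^ n * (if b then R.a else 1)}

open Classical in
lemma D_subset : R.D ⊆ ((Finset.univ : Finset (Fin 4 × Bool)).image fun p =>
    (R.a * R.b1) ^ (p.1 : ℕ) * (if p.2 then R.a else 1) : Finset (Equiv.Perm X)) := by
  rintro g ⟨n, b, rfl⟩
  rw [Finset.mem_coe, Finset.mem_image]
  refine ⟨(⟨n % 4, Nat.mod_lt _ (by norm_num)⟩, b), Finset.mem_univ _, ?_⟩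
  simp only
  rw [pow_eq_pow_mod n R.ab_four]

lemma D_finite : R.D.Finite := (Finset.finite_toSet _).subset R.D_subset

lemma D_ncard : R.D.ncard ≤ 8 := by
  classical
  refine (Set.ncard_le_ncard R.D_subset (Finset.finite_toSet _)).trans ?_
  rw [Set.ncard_coe_finset]
  refine Finset.card_image_le.trans ?_
  simp

lemma D_mul (g : Equiv.Perm X) (hg : g ∈ R.D) (i : Fin 3) : g * R.snd i ∈ R.D := by
  obtain ⟨n, b, rfl⟩ := hg
  have haa := R.a_a
  have hbb := R.sq1
  have h4 := R.ab_four
  have h5 : (R.a * R.b1) ^ (n + 3) * R.a = (R.a * R.b1) ^ n * R.b1 := by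
    have h6 : (R.a * R.b1) ^ 3 * R.a = R.b1 := by
      have h7 : ((R.a * R.b1) ^ 3 * R.a) * R.b1 = R.b1 * R.b1 := by
        rw [mul_assoc, ← pow_succ, h4, hbb]
      exact mul_right_cancel h7
    rw [pow_add, mul_assoc, h6]
  fin_cases i
  · cases b
    · exact ⟨n + 3, true, by simpa [snd] using h5.symm⟩
    · refine ⟨n + 1, false, ?_⟩
      simp [snd, pow_succ, mul_assoc]
  · exact ⟨n, b, by simp [snd]⟩
  · cases b
    · exact ⟨n, true, by simp [snd]⟩
    · exact ⟨n, false, by simp [snd, mul_assoc, haa]⟩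

lemma Ws_mem (w : List (Fin 3)) : R.Ws w ∈ R.D := by
  induction w using List.reverseRecOn with
  | nil => exact ⟨0, false, by simp [Ws]⟩
  | append_singleton w i ih =>
    have : R.Ws (w ++ [i]) = R.Ws w * R.snd i := by simp [Ws]
    rw [this]
    exact R.D_mul _ ih i

/-- the square inequality -/
lemma B_sq (r : ℕ) : (R.B r).ncard ^ 2 ≤ 64 * (R.B (6 * r + 2)).ncard := by
  classical
  have hch : ∀ g : Equiv.Perm X, ∃ w : List (Fin 3), g ∈ R.B r → (w.length ≤ r ∧ R.W w = g) := by
    intro g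
    by_cases hg : g ∈ R.B r
    · obtain ⟨w, hw⟩ := hg
      exact ⟨w, fun _ => hw⟩
    · exact ⟨[], fun h => absurd h hg⟩
  choose w hw using hch
  set f : Equiv.Perm X × Equiv.Perm X → Equiv.Perm X × (Equiv.Perm X × Equiv.Perm X) := fun p =>
    (R.W (Lw (w p.1) ++ [0] ++ Lw (w p.2) ++ [0]), (R.Ws (w p.1), R.Ws (w p.2))) with hf
  have hfalse : ∀ p x, (f p).1 (R.Φ (false, x)) = R.Φ (false, R.W (w p.1) (R.Ws (w p.2) x)) := by
    intro p x
    have h0 : R.W [0] = R.a := by simp [W, gen]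
    simp only [hf, W_append, Equiv.Perm.mul_apply, h0, R.ha, W_Lw_true, W_Lw_false, Bool.not_false,
      Bool.not_true]
  have htrue : ∀ p x, (f p).1 (R.Φ (true, x)) = R.Φ (true, R.Ws (w p.1) (R.W (w p.2) x)) := by
    intro p x
    have h0 : R.W [0] = R.a := by simp [W, gen]
    simp only [hf, W_append, Equiv.Perm.mul_apply, h0, R.ha, W_Lw_true, W_Lw_false, Bool.not_false,
      Bool.not_true]
  have h1 : (R.B r ×ˢ R.B r).ncard ≤ (R.B (6 * r + 2) ×ˢ (R.D ×ˢ R.D)).ncard := by
    refine Set.ncard_le_ncard_of_injOn f ?_ ?_ ?_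
    · rintro ⟨g, g'⟩ ⟨hg, hg'⟩
      refine ⟨⟨_, ?_, rfl⟩, R.Ws_mem _, R.Ws_mem _⟩
      have e1 := Lw_length (w g)
      have e2 := Lw_length (w g')
      have e3 := (hw g hg).1
      have e4 := (hw g' hg').1
      simp only [List.length_append, List.length_cons, List.length_nil]
      omega
    · rintro p ⟨hp1, hp2⟩ q ⟨hq1, hq2⟩ hpq
      have e1 : R.Ws (w p.1) = R.Ws (w q.1) := congrArg (fun z => z.2.1) hpq
      have e2 : R.Ws (w p.2) = R.Ws (w q.2) := congrArg (fun z => z.2.2) hpq
      have e3 : (f p).1 = (f q).1 := congrArg (fun z => z.1) hpq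
      have hΦ : ∀ i x y, R.Φ (i, x) = R.Φ (i, y) → x = y := by
        intro i x y h
        have := R.Φ.injective h
        simpa using this
      have e4 : R.W (w p.1) = R.W (w q.1) := by
        have h5 : R.W (w p.1) * R.Ws (w p.2) = R.W (w q.1) * R.Ws (w p.2) := by
          ext x
          have h6 := hfalse p x
          rw [e3, hfalse q x] at h6
          have h7 := hΦ _ _ _ h6
          rw [Equiv.Perm.mul_apply, Equiv.Perm.mul_apply, ← h7, e2]
        exact mul_right_cancel h5
      have e5 : R.W (w p.2) = R.W (w q.2) := by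
        have h5 : R.Ws (w p.1) * R.W (w p.2) = R.Ws (w p.1) * R.W (w q.2) := by
          ext x
          have h6 := htrue p x
          rw [e3, htrue q x] at h6
          have h7 := hΦ _ _ _ h6
          rw [Equiv.Perm.mul_apply, Equiv.Perm.mul_apply, ← h7, e1]
        exact mul_left_cancel h5
      refine Prod.ext ?_ ?_
      · rw [← (hw p.1 hp1).2, ← (hw q.1 hq1).2, e4]
      · rw [← (hw p.2 hp2).2, ← (hw q.2 hq2).2, e5]
    · exact (R.B_finite _).prod (R.D_finite.prod R.D_finite)
  rw [Set.ncard_prod, Set.ncard_prod, Set.ncard_prod] at h1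
  have h2 := R.D_ncard
  calc (R.B r).ncard ^ 2 = (R.B r).ncard * (R.B r).ncard := pow_two _
    _ ≤ (R.B (6 * r + 2)).ncard * (R.D.ncard * R.D.ncard) := h1
    _ ≤ (R.B (6 * r + 2)).ncard * (8 * 8) := Nat.mul_le_mul_left _ (Nat.mul_le_mul h2 h2)
    _ = 64 * (R.B (6 * r + 2)).ncard := by ring

lemma B_mono {r t : ℕ} (h : r ≤ t) : (R.B r).ncard ≤ (R.B t).ncard := by
  refine Set.ncard_le_ncard ?_ (R.B_finite t)
  rintro g ⟨w, h1, h2⟩
  exact ⟨w, h1.trans h, h2⟩

/-- an element of infinite order -/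
def c : Equiv.Perm X := R.a * (R.b0 * R.b1)

lemma c_false (x : X) : R.c (R.Φ (false, x)) = R.Φ (true, (R.b0 * R.b1) x) := by
  rw [R.comm]
  simp [c, R.h00, R.h10, R.ha]

lemma c_true (x : X) : R.c (R.Φ (true, x)) = R.Φ (false, R.a x) := by
  simp [c, R.h01, R.h11, R.ha]

lemma c_pow_even (n : ℕ) (x : X) : (R.c ^ (2 * n)) (R.Φ (false, x)) = R.Φ (false, (R.c ^ n) x) := by
  induction n with
  | zero => simp
  | succ n ih =>
    rw [show 2 * (n + 1) = 2 + 2 * n by ring, pow_add, Equiv.Perm.mul_apply, ih, pow_two,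
      Equiv.Perm.mul_apply, c_false, c_true, pow_succ', Equiv.Perm.mul_apply]
    rfl

lemma c_pow_odd (n : ℕ) (x : X) : ∃ y, (R.c ^ (2 * n + 1)) (R.Φ (false, x)) = R.Φ (true, y) := by
  rw [pow_succ', Equiv.Perm.mul_apply, c_pow_even, c_false]
  exact ⟨_, rfl⟩

lemma c_pow_ne [Nonempty X] (n : ℕ) (hn : 0 < n) : R.c ^ n ≠ 1 := by
  induction n using Nat.strong_induction_on with
  | _ n ih =>
    intro h
    rcases Nat.even_or_odd' n with ⟨m, rfl | rfl⟩
    · refine ih m (by omega) (by omega) ?_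
      ext x
      have h1 := R.c_pow_even m x
      rw [h] at h1
      have h2 := R.Φ.injective h1
      simp only [Prod.mk.injEq, true_and] at h2
      exact h2.symm
    · obtain ⟨x⟩ := (inferInstance : Nonempty X)
      obtain ⟨y, hy⟩ := R.c_pow_odd m x
      rw [h] at hy
      have h2 := R.Φ.injective hy
      simp at h2

lemma c_pow_inj [Nonempty X] : Function.Injective fun n : ℕ => R.c ^ n := by
  have : ¬ IsOfFinOrder R.c := by
    rw [isOfFinOrder_iff_pow_eq_one]
    rintro ⟨n, hn, h⟩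
    exact R.c_pow_ne n hn h
  exact injective_pow_iff_not_isOfFinOrder.2 this

lemma B_linear [Nonempty X] (n : ℕ) : n + 1 ≤ (R.B (3 * n)).ncard := by
  have h1 : ((fun k : ℕ => R.c ^ k) '' (Set.Iic n)).ncard = n + 1 := by
    rw [Set.ncard_image_of_injective _ R.c_pow_inj, ← Nat.card_coe_set_eq]
    simp
  rw [← h1]
  refine Set.ncard_le_ncard ?_ (R.B_finite _)
  rintro _ ⟨k, hk, rfl⟩
  refine ⟨(List.replicate k [0, 1, 2]).flatten, ?_, ?_⟩
  · rw [List.length_flatten, List.map_replicate, List.sum_replicate]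
    simp only [Set.mem_Iic] at hk
    simp
    omega
  · have : ∀ k, R.W (List.replicate k [0, 1, 2]).flatten = R.c ^ k := by
      intro k
      induction k with
      | zero => simp [W]
      | succ k ih =>
        rw [List.replicate_succ, List.flatten_cons, W_append, ih, pow_succ']
        simp [W, gen, c]
    exact this k

lemma B_pos (n : ℕ) : 1 ≤ (R.B n).ncard := by
  rw [Nat.one_le_iff_ne_zero, ← Nat.pos_iff_ne_zero, Set.ncard_pos (R.B_finite n)]
  exact ⟨1, [], by simp, by simp [W]⟩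

lemma B_pow [Nonempty X] (j : ℕ) : ∃ C : ℕ, 0 < C ∧ ∀ n, n ^ (2 ^ j) ≤ C * (R.B n).ncard := by
  induction j with
  | zero =>
    refine ⟨3, by norm_num, fun n => ?_⟩
    have h1 := R.B_linear (n / 3)
    have h2 := R.B_mono (show 3 * (n / 3) ≤ n by omega)
    simp only [pow_zero, pow_one]
    omega
  | succ j ih =>
    obtain ⟨C, hC, h⟩ := ih
    refine ⟨16 ^ (2 ^ (j + 1)) * (64 * C ^ 2), by positivity, fun n => ?_⟩
    by_cases hn : n < 8
    · calc n ^ 2 ^ (j + 1) ≤ 16 ^ 2 ^ (j + 1) := Nat.pow_le_pow_left (by omega) _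
        _ = 16 ^ 2 ^ (j + 1) * (1 * 1) * 1 := by ring
        _ ≤ 16 ^ 2 ^ (j + 1) * (64 * C ^ 2) * (R.B n).ncard := by
            refine Nat.mul_le_mul (Nat.mul_le_mul_left _ (Nat.mul_le_mul (by norm_num) ?_)) (R.B_pos n)
            exact Nat.one_le_pow _ _ hC
    · have h1 : n ≤ 16 * (n / 8) := by omega
      have h2 : (n / 8) ^ 2 ^ (j + 1) ≤ C ^ 2 * (64 * (R.B n).ncard) := by
        calc (n / 8) ^ 2 ^ (j + 1) = ((n / 8) ^ 2 ^ j) ^ 2 := by rw [← pow_mul, pow_succ]
          _ ≤ (C * (R.B (n / 8)).ncard) ^ 2 := Nat.pow_le_pow_left (h _) 2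
          _ = C ^ 2 * (R.B (n / 8)).ncard ^ 2 := by ring
          _ ≤ C ^ 2 * (64 * (R.B (6 * (n / 8) + 2)).ncard) := Nat.mul_le_mul_left _ (R.B_sq _)
          _ ≤ C ^ 2 * (64 * (R.B n).ncard) :=
              Nat.mul_le_mul_left _ (Nat.mul_le_mul_left _ (R.B_mono (by omega)))
      calc n ^ 2 ^ (j + 1) ≤ (16 * (n / 8)) ^ 2 ^ (j + 1) := Nat.pow_le_pow_left h1 _
        _ = 16 ^ 2 ^ (j + 1) * (n / 8) ^ 2 ^ (j + 1) := mul_pow _ _ _
        _ ≤ 16 ^ 2 ^ (j + 1) * (C ^ 2 * (64 * (R.B n).ncard)) := Nat.mul_le_mul_left _ h2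
        _ = 16 ^ 2 ^ (j + 1) * (64 * C ^ 2) * (R.B n).ncard := by ring

/-! ### Groups with an embedding -/

/-- **Theorem.** A group generated by elements acting as `a`, `b0`, `b1` has intermediate growth. -/
theorem intermediateGrowth [Nonempty X] {G : Type*} [Group G] (ι : G →* Equiv.Perm X)
    (hι : Function.Injective ι) (a b0 b1 : G) (ha : ι a = R.a) (hb0 : ι b0 = R.b0) (hb1 : ι b1 = R.b1)
    (hgen : Subgroup.closure {a, b0, b1} = ⊤) : IntermediateGrowth G := by
  intro S hS hcl
  set S0 : Set G := {a, b0, b1} with hS0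
  have hS0f : S0.Finite := by simp [hS0]
  obtain ⟨m, hm, hm'⟩ := exists_ball_finite hcl hS0f
  obtain ⟨k, hk, hk'⟩ := exists_ball_finite hgen hS
  have haa : a * a = 1 := hι (by rw [map_mul, ha, R.a_a, map_one])
  have hb00 : b0 * b0 = 1 := hι (by rw [map_mul, hb0, R.sq0, map_one])
  have hb11 : b1 * b1 = 1 := hι (by rw [map_mul, hb1, R.sq1, map_one])
  -- the images of the balls
  have himg : ∀ r, ι '' (ball S0 r) = R.B r := by
    intro r
    apply Set.Subset.antisymm
    · rintro _ ⟨g, ⟨l, h1, h2, rfl⟩, rfl⟩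
      have h3 : ∀ x ∈ l, ∃ i : Fin 3, ι x = R.gen i := by
        intro x hx
        rcases h2 x hx with h | h
        · rcases h with rfl | rfl | rfl
          · exact ⟨0, ha⟩
          · exact ⟨1, hb0⟩
          · exact ⟨2, hb1⟩
        · have hinv : ∀ y : G, y * y = 1 → x⁻¹ = y → x = y := by
            intro y hy hxy
            rw [← inv_inv x, hxy]
            exact inv_eq_of_mul_eq_one_left hy
          rcases h with h | h | h
          · exact ⟨0, by rw [hinv a haa h]; exact ha⟩
          · exact ⟨1, by rw [hinv b0 hb00 h]; exact hb0⟩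
          · exact ⟨2, by rw [hinv b1 hb11 h]; exact hb1⟩
      have h4 : ∃ w : List (Fin 3), w.length = l.length ∧ R.W w = ι l.prod := by
        clear h1 h2
        induction l with
        | nil => exact ⟨[], rfl, by simp [W]⟩
        | cons x l ih =>
          obtain ⟨w, hw1, hw2⟩ := ih fun y hy => h3 y (List.mem_cons_of_mem _ hy)
          obtain ⟨i, hi⟩ := h3 x List.mem_cons_self
          exact ⟨i :: w, by simp [hw1], by rw [W_cons, hw2, List.prod_cons, map_mul, hi]⟩
      obtain ⟨w, hw1, hw2⟩ := h4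
      exact ⟨w, by omega, hw2⟩
    · rintro _ ⟨w, h1, rfl⟩
      refine ⟨(w.map ![a, b0, b1]).prod, ⟨w.map ![a, b0, b1], by simpa using h1, ?_, rfl⟩, ?_⟩
      · intro x hx
        left
        obtain ⟨i, -, rfl⟩ := List.mem_map.1 hx
        fin_cases i <;> simp [hS0]
      · clear h1
        induction w with
        | nil => simp [W]
        | cons i w ih =>
          rw [List.map_cons, List.prod_cons, map_mul, ih, W_cons]
          congr 1
          fin_cases i
          · exact ha
          · exact hb0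
          · exact hb1
  have hcard : ∀ r, (ball S0 r).ncard = (R.B r).ncard := by
    intro r
    rw [← himg r, Set.ncard_image_of_injective _ hι]
  constructor
  · intro d
    obtain ⟨C, hC, hB⟩ := R.B_pow d
    rw [eventually_atTop]
    refine ⟨max m ((2 * m) ^ (2 ^ d) * C + 1), fun r hr => ?_⟩
    have hr1 : m ≤ r := (le_max_left _ _).trans hr
    have hr2 : (2 * m) ^ (2 ^ d) * C + 1 ≤ r := (le_max_right _ _).trans hr
    have h1 : (ball S0 (r / m)).ncard ≤ (ball S r).ncard := by
      refine Set.ncard_le_ncard ((ball_ball hm' (r / m)).trans (ball_mono ?_)) (ball_finite hS r)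
      exact Nat.mul_div_le r m
    rw [hcard] at h1
    have h2 : r ≤ 2 * m * (r / m) := by
      have e1 : r < m * (r / m) + m := Nat.lt_mul_div_succ r (by omega)
      have e2 : m ≤ m * (r / m) := Nat.le_mul_of_pos_right _ (Nat.div_pos hr1 (by omega))
      calc r ≤ m * (r / m) + m := e1.le
        _ ≤ m * (r / m) + m * (r / m) := by omega
        _ = 2 * m * (r / m) := by ring
    have h3 : r ^ (2 ^ d) ≤ (2 * m) ^ (2 ^ d) * C * (ball S r).ncard := by
      calc r ^ (2 ^ d) ≤ (2 * m * (r / m)) ^ (2 ^ d) := Nat.pow_le_pow_left h2 _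
        _ = (2 * m) ^ (2 ^ d) * (r / m) ^ (2 ^ d) := mul_pow _ _ _
        _ ≤ (2 * m) ^ (2 ^ d) * (C * (R.B (r / m)).ncard) := Nat.mul_le_mul_left _ (hB _)
        _ ≤ (2 * m) ^ (2 ^ d) * (C * (ball S r).ncard) :=
            Nat.mul_le_mul_left _ (Nat.mul_le_mul_left _ h1)
        _ = (2 * m) ^ (2 ^ d) * C * (ball S r).ncard := by ring
    have h4 : r ^ d * r ≤ r ^ (2 ^ d) := by
      rw [← pow_succ]
      exact Nat.pow_le_pow_right (by omega) (Nat.lt_two_pow_self)
    have h5 : r ^ d < (ball S r).ncard := by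
      by_contra hcon
      push Not at hcon
      have h6 : (2 * m) ^ (2 ^ d) * C * (ball S r).ncard ≤ (2 * m) ^ (2 ^ d) * C * r ^ d :=
        Nat.mul_le_mul_left _ hcon
      have h7 : r ^ d * ((2 * m) ^ (2 ^ d) * C + 1) ≤ r ^ d * r := Nat.mul_le_mul_left _ hr2
      have h8 : 0 < r ^ d := Nat.pow_pos (by omega)
      nlinarith
    exact_mod_cast h5
  · intro c hc
    have hk0 : (0 : ℝ) < k := by exact_mod_cast hk
    obtain ⟨C, hC, hB⟩ := R.B_subexp (c / (2 * k)) (by positivity)
    have h1 : ∀ r, ((ball S r).ncard : ℝ) ≤ C * Real.exp (c / 2 * r) := by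
      intro r
      have h2 : (ball S r).ncard ≤ (R.B (k * r)).ncard := by
        rw [← hcard]
        exact Set.ncard_le_ncard (ball_ball hk' r) (ball_finite hS0f _)
      have h3 : ((ball S r).ncard : ℝ) ≤ ((R.B (k * r)).ncard : ℝ) := by exact_mod_cast h2
      refine h3.trans ((hB _).trans (le_of_eq ?_))
      push_cast
      congr 2
      field_simp
    have h2 : Tendsto (fun r : ℕ => Real.exp (c / 2 * r)) atTop atTop :=
      Real.tendsto_exp_atTop.comp (tendsto_natCast_atTop_atTop.const_mul_atTop (by positivity))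
    filter_upwards [h2.eventually_gt_atTop C] with r hr
    calc ((ball S r).ncard : ℝ) ≤ C * Real.exp (c / 2 * r) := h1 r
      _ < Real.exp (c / 2 * r) * Real.exp (c / 2 * r) :=
          mul_lt_mul_of_pos_right hr (Real.exp_pos _)
      _ = Real.exp (c * r) := by
          rw [← Real.exp_add]
          congr 1
          ring

end Rec

end Pool.Agent.K6.H83
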