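import Pool.Agent.K6.H83.Growth

/-!
# The Morse subshift
-/

set_option autoImplicit false

namespace Pool.Agent.K6.H83

/-- the extension of a substitution to words -/
def substWord {A : Type*} (σ : A → List A) (w : List A) : List A := w.flatMap σ

/-- the subshift of a (primitive) substitution: all bi-infinite sequences all of whose finite
subwords occur in some `σ ^ n (a)`, `n ≥ 1` -/
def subshift {A : Type*} (σ : A → List A) : Set (ℤ → A) :=
  {x | ∀ (i : ℤ) (l : ℕ), ∃ (a : A) (n : ℕ), 1 ≤ n ∧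
    (List.ofFn fun j : Fin l => x (i + j)) <:+: (substWord σ)^[n] [a]}

/-- the Morse substitution `0 ↦ 01`, `1 ↦ 10` -/
def morse : Bool → List Bool := fun b => [b, !b]

/-- the Thue-Morse sequence -/
def t (n : ℕ) : Bool := if n = 0 then false else xor (decide (n % 2 = 1)) (t (n / 2))
termination_by n
decreasing_by omega

lemma t_even (n : ℕ) : t (2 * n) = t n := by
  by_cases h : n = 0
  · simp [h]
  · rw [t]
    have h1 : 2 * n ≠ 0 := by omega
    have h2 : 2 * n % 2 = 0 := by omega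
    have h3 : 2 * n / 2 = n := by omega
    rw [if_neg h1, h2, h3]
    simp

lemma t_odd (n : ℕ) : t (2 * n + 1) = !t n := by
  rw [t]
  have h1 : 2 * n + 1 ≠ 0 := by omega
  have h2 : (2 * n + 1) % 2 = 1 := by omega
  have h3 : (2 * n + 1) / 2 = n := by omega
  rw [if_neg h1, h2, h3]
  simp

lemma flatMap_range {A : Type*} (g : ℕ → A) (N : ℕ) :
    (List.range N).flatMap (fun k => [g (2 * k), g (2 * k + 1)]) = (List.range (2 * N)).map g := by
  induction N with
  | zero => simp
  | succ N ih =>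
    rw [List.range_succ, List.flatMap_append, ih, show 2 * (N + 1) = 2 * N + 1 + 1 by ring,
      List.range_succ, List.range_succ]
    simp

lemma iterate_morse (n : ℕ) (b : Bool) :
    (substWord morse)^[n] [b] = (List.range (2 ^ n)).map fun k => xor b (t k) := by
  induction n with
  | zero =>
    have : t 0 = false := by rw [t]; simp
    simp [this]
  | succ n ih =>
    rw [Function.iterate_succ_apply', ih, pow_succ', ← flatMap_range]
    unfold substWord
    rw [List.flatMap_map]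
    apply List.flatMap_congr
    intro k _
    rw [t_even, t_odd]
    simp [morse]

/-- the Morse subshift -/
def X : Set (ℤ → Bool) := subshift morse

lemma mem_X (x : ℤ → Bool) : x ∈ X ↔ ∀ (i : ℤ) (l : ℕ), ∃ (b : Bool) (m : ℕ), ∀ j < l,
    x (i + (j : ℕ)) = xor b (t (m + j)) := by
  constructor
  · intro h i l
    obtain ⟨b, n, -, u, v, huv⟩ := h i l
    refine ⟨b, u.length, fun j hj => ?_⟩
    rw [iterate_morse] at huv
    have h1 : (u ++ (List.ofFn fun j : Fin l => x (i + j)) ++ v)[u.length + j]? =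
        some (x (i + j)) := by
      rw [List.append_assoc, List.getElem?_append_right (by omega), Nat.add_sub_cancel_left,
        List.getElem?_append_left (by simpa using hj)]
      simp [hj]
    rw [huv] at h1
    rw [List.getElem?_map] at h1
    rw [Option.map_eq_some_iff] at h1
    obtain ⟨k, hk, hk'⟩ := h1
    rw [List.getElem?_eq_some_iff] at hk
    obtain ⟨hk1, hk2⟩ := hk
    rw [List.getElem_range] at hk2
    rw [← hk', hk2]
  · intro h i l
    obtain ⟨b, m, hm⟩ := h i l
    refine ⟨b, m + l + 1, by omega, ?_⟩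
    rw [iterate_morse]
    have h1 : (List.ofFn fun j : Fin l => x (i + j)) =
        (((List.range (2 ^ (m + l + 1))).map fun k => xor b (t k)).drop m).take l := by
      have hlt : m + l < 2 ^ (m + l + 1) := lt_trans (Nat.lt_succ_self _) Nat.lt_two_pow_self
      apply List.ext_getElem
      · simp
        omega
      · intro j h1 h2
        have hj : j < l := by simpa using h1
        simp [hm j hj]
    rw [h1]
    exact (List.take_prefix _ _).isInfix.trans (List.drop_suffix _ _).isInfix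

lemma t_eq_odd {m : ℕ} (h : t m = t (m + 1)) : m % 2 = 1 := by
  by_contra hm
  obtain ⟨k, rfl⟩ : ∃ k, m = 2 * k := ⟨m / 2, by omega⟩
  rw [t_even, t_odd] at h
  simp at h

lemma exists_eq (m : ℕ) : ∃ j < 4, t (m + j) = t (m + j + 1) := by
  have key : ∀ k, t (4 * k + 1) = t (4 * k + 1 + 1) := by
    intro k
    rw [show 4 * k + 1 + 1 = 2 * (2 * k + 1) by ring, show 4 * k + 1 = 2 * (2 * k) + 1 by ring,
      t_odd, t_even, t_even, t_odd]
  refine ⟨(5 - m % 4) % 4, Nat.mod_lt _ (by norm_num), ?_⟩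
  have : m + (5 - m % 4) % 4 = 4 * ((m + (5 - m % 4) % 4) / 4) + 1 := by omega
  rw [this]
  exact key _

lemma key {x : ℤ → Bool} (hx : x ∈ X) {k n : ℤ} (hk : x k = x (k + 1)) (hn : (n - k) % 2 = 1) :
    x n ≠ x (n + 1) := by
  rw [mem_X] at hx
  obtain ⟨b, m, hm⟩ := hx (min k n) ((max k n - min k n).toNat + 2)
  obtain ⟨p, hp⟩ : ∃ p : ℕ, k = min k n + p := ⟨(k - min k n).toNat, by omega⟩
  obtain ⟨q, hq⟩ : ∃ q : ℕ, n = min k n + q := ⟨(n - min k n).toNat, by omega⟩
  have e1 := hm p (by omega)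
  have e2 := hm (p + 1) (by omega)
  have e3 := hm q (by omega)
  have e4 := hm (q + 1) (by omega)
  push_cast at e2 e4
  rw [← add_assoc] at e2 e4
  rw [← hp] at e1 e2
  rw [← hq] at e3 e4
  rw [e1, e2] at hk
  rw [e3, e4]
  have h1 : t (m + p) = t (m + p + 1) := by
    rw [← add_assoc] at hk
    exact (Bool.xor_right_inj).1 hk
  intro h2
  have h3 : t (m + q) = t (m + q + 1) := by
    rw [← add_assoc] at h2
    exact (Bool.xor_right_inj).1 h2
  have := t_eq_odd h1
  have := t_eq_odd h3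
  omega

lemma exists_eq_X {x : ℤ → Bool} (hx : x ∈ X) (i : ℤ) : ∃ j : ℕ, j < 4 ∧ x (i + j) = x (i + j + 1) := by
  rw [mem_X] at hx
  obtain ⟨b, m, hm⟩ := hx i 5
  obtain ⟨j, hj, h⟩ := exists_eq m
  refine ⟨j, hj, ?_⟩
  have e1 := hm j (by omega)
  have e2 := hm (j + 1) (by omega)
  push_cast at e2
  rw [← add_assoc] at e2
  rw [e1, e2, h, add_assoc]

/-- the local rule which finds the parity -/
def loc (x : ℤ → Bool) : Bool := (x 1 == x 2) || (x 3 == x 4)

lemma loc_true {x : ℤ → Bool} (hx : x ∈ X) (h : loc x = true) (n : ℤ) : x (2 * n) ≠ x (2 * n + 1) := by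
  simp only [loc, Bool.or_eq_true, beq_iff_eq] at h
  rcases h with h | h
  · exact key hx (k := 1) h (by omega)
  · exact key hx (k := 3) h (by omega)

lemma loc_false {x : ℤ → Bool} (hx : x ∈ X) (h : loc x = false) (n : ℤ) :
    x (2 * n + 1) ≠ x (2 * n + 2) := by
  simp only [loc, Bool.or_eq_false_iff, beq_eq_false_iff_ne] at h
  obtain ⟨j, hj, hj'⟩ := exists_eq_X hx 0
  have h2 : j = 0 ∨ j = 2 := by
    interval_cases j
    · left; rfl
    · exact absurd (by simpa using hj') h.1
    · right; rfl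
    · exact absurd (by simpa using hj') h.2
  have h3 := key hx (n := 2 * n + 1) hj' (by omega)
  rwa [add_assoc] at h3

lemma loc_iff {x : ℤ → Bool} (hx : x ∈ X) : loc x = true ↔ ∀ n : ℤ, x (2 * n) ≠ x (2 * n + 1) := by
  refine ⟨fun h n => loc_true hx h n, fun h => ?_⟩
  by_contra hl
  rw [Bool.not_eq_true] at hl
  obtain ⟨j, hj, hj'⟩ := exists_eq_X hx 0
  rw [zero_add] at hj'
  have h0 := loc_false hx hl 0
  have h1 := loc_false hx hl 1
  have h2 := h 0
  have h3 := h 1
  norm_num at h0 h1 h2 h3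
  interval_cases j <;> norm_num at hj' <;> first | exact h0 hj' | exact h1 hj' | exact h2 hj' | exact h3 hj'

lemma loc_false_iff {x : ℤ → Bool} (hx : x ∈ X) : loc x = false ↔ ∀ n : ℤ, x (2 * n + 1) ≠ x (2 * n + 2) := by
  refine ⟨fun h n => loc_false hx h n, fun h => ?_⟩
  by_contra hl
  rw [Bool.not_eq_false] at hl
  obtain ⟨j, hj, hj'⟩ := exists_eq_X hx 0
  rw [zero_add] at hj'
  have h0 := loc_true hx hl 0
  have h1 := loc_true hx hl 1
  have h2 := h 0
  have h3 := h 1
  norm_num at h0 h1 h2 h3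
  interval_cases j <;> norm_num at hj' <;> first | exact h0 hj' | exact h1 hj' | exact h2 hj' | exact h3 hj'

/-- the substitution on bi-infinite sequences -/
def sg (x : ℤ → Bool) : ℤ → Bool := fun i => if i % 2 = 0 then x (i / 2) else !x (i / 2)

lemma sg_mem {x : ℤ → Bool} (hx : x ∈ X) : sg x ∈ X := by
  rw [mem_X] at hx ⊢
  intro i l
  obtain ⟨b, m, hm⟩ := hx (i / 2) (l + 1)
  obtain ⟨r, hr, hr2⟩ : ∃ r : ℕ, i % 2 = r ∧ r < 2 := ⟨(i % 2).toNat, by omega, by omega⟩
  refine ⟨b, 2 * m + r, fun j hj => ?_⟩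
  have h1 : (i + j) / 2 = i / 2 + ((r + j) / 2 : ℕ) := by omega
  have h2 : (i + j) % 2 = ((r + j) % 2 : ℕ) := by omega
  have h3 := hm ((r + j) / 2) (by omega)
  unfold sg
  rw [h1, h2, h3]
  rcases Nat.mod_two_eq_zero_or_one (r + j) with h4 | h4
  · have h5 : 2 * m + r + j = 2 * (m + (r + j) / 2) := by omega
    rw [h4, h5, t_even]
    simp
  · have h5 : 2 * m + r + j = 2 * (m + (r + j) / 2) + 1 := by omega
    rw [h4, h5, t_odd]
    simp

/-- the inverse of the substitution -/
def ds (x : ℤ → Bool) : ℤ → Bool := fun n => x (2 * n)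

lemma ds_mem {x : ℤ → Bool} (hx : x ∈ X) (h : loc x = true) : ds x ∈ X := by
  have hP := loc_true hx h
  have hE := fun i => exists_eq_X hx i
  rw [mem_X] at hx ⊢
  intro i l
  obtain ⟨b, m, hm⟩ := hx (2 * i) (2 * l + 5)
  obtain ⟨j, hj, hj'⟩ := hE (2 * i)
  have hjodd : j % 2 = 1 := by
    by_contra hc
    obtain ⟨k, rfl⟩ : ∃ k, j = 2 * k := ⟨j / 2, by omega⟩
    apply hP (i + k)
    convert hj' using 2 <;> push_cast <;> ring
  have e1 := hm j (by omega)
  have e2 := hm (j + 1) (by omega)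
  push_cast at e2
  rw [← add_assoc] at e2
  rw [e1, e2] at hj'
  have h1 : t (m + j) = t (m + j + 1) := by
    rw [← add_assoc] at hj'
    exact (Bool.xor_right_inj).1 hj'
  have h2 := t_eq_odd h1
  obtain ⟨k, rfl⟩ : ∃ k, m = 2 * k := ⟨m / 2, by omega⟩
  refine ⟨b, k, fun q hq => ?_⟩
  have e3 := hm (2 * q) (by omega)
  have e4 : 2 * k + 2 * q = 2 * (k + q) := by ring
  rw [e4, t_even] at e3
  unfold ds
  rw [← e3]
  congr 1
  push_cast
  ring

lemma sg_ds {x : ℤ → Bool} (hx : x ∈ X) (h : loc x = true) : sg (ds x) = x := by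
  funext i
  unfold sg ds
  by_cases hi : i % 2 = 0
  · rw [if_pos hi]
    congr 1
    omega
  · rw [if_neg hi]
    have h1 := loc_true hx h (i / 2)
    have h2 : 2 * (i / 2) + 1 = i := by omega
    rw [h2] at h1
    revert h1
    cases x (2 * (i / 2)) <;> cases x i <;> simp

lemma ds_sg (x : ℤ → Bool) : ds (sg x) = x := by
  funext i
  have h1 : (2 * i) % 2 = 0 := by omega
  have h2 : (2 * i) / 2 = i := by omega
  show (if (2 * i) % 2 = 0 then x ((2 * i) / 2) else !x ((2 * i) / 2)) = x i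
  rw [if_pos h1, h2]

/-- the shift -/
def sh (k : ℤ) (x : ℤ → Bool) : ℤ → Bool := fun i => x (i + k)

lemma sh_mem (k : ℤ) {x : ℤ → Bool} (hx : x ∈ X) : sh k x ∈ X := by
  rw [mem_X] at hx ⊢
  intro i l
  obtain ⟨b, m, hm⟩ := hx (i + k) l
  refine ⟨b, m, fun j hj => ?_⟩
  rw [← hm j hj]
  unfold sh
  congr 1
  ring

lemma loc_sg {x : ℤ → Bool} (hx : x ∈ X) : loc (sg x) = true := by
  rw [loc_iff (sg_mem hx)]
  intro n
  unfold sg
  have h1 : (2 * n) % 2 = 0 := by omega
  have h2 : (2 * n) / 2 = n := by omega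
  have h3 : (2 * n + 1) % 2 ≠ 0 := by omega
  have h4 : (2 * n + 1) / 2 = n := by omega
  rw [if_pos h1, h2, if_neg h3, h4]
  simp

lemma loc_sh_one {x : ℤ → Bool} (hx : x ∈ X) : loc (sh 1 x) = !loc x := by
  cases h : loc x
  · rw [Bool.not_false, loc_iff (sh_mem 1 hx)]
    intro n
    have := loc_false hx h n
    unfold sh
    rwa [show 2 * n + 1 + 1 = 2 * n + 2 by ring]
  · rw [Bool.not_true, loc_false_iff (sh_mem 1 hx)]
    intro n
    have := loc_true hx h (n + 1)
    unfold sh
    convert this using 2 <;> ring_nf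

lemma loc_sh_neg {x : ℤ → Bool} (hx : x ∈ X) : loc (sh (-1) x) = !loc x := by
  have h := loc_sh_one (sh_mem (-1) hx)
  have h2 : sh 1 (sh (-1) x) = x := by
    funext i
    unfold sh
    congr 1
    ring
  rw [h2] at h
  rw [h, Bool.not_not]

lemma sg_sh (x : ℤ → Bool) : sg (sh 1 x) = sh 2 (sg x) := by
  funext i
  have h1 : (i + 2) % 2 = i % 2 := by omega
  have h2 : (i + 2) / 2 = i / 2 + 1 := by omega
  show (if i % 2 = 0 then x (i / 2 + 1) else !x (i / 2 + 1)) =
    (if (i + 2) % 2 = 0 then x ((i + 2) / 2) else !x ((i + 2) / 2))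
  rw [h1, h2]

lemma sh_sh (j k : ℤ) (x : ℤ → Bool) : sh j (sh k x) = sh (j + k) x := by
  funext i
  show x (i + j + k) = x (i + (j + k))
  rw [add_assoc]

lemma sh_zero (x : ℤ → Bool) : sh 0 x = x := by
  funext i
  show x (i + 0) = x i
  rw [add_zero]

end Pool.Agent.K6.H83
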