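import Mathlib

/-!
# Words in a group with the wreath recursion `a = swap`, `b0 = (b1, a)`, `b1 = (b0, 1)`
-/

set_option autoImplicit false

namespace Pool.Agent.K6.H83

/-- Permutations `a`, `b0`, `b1` of `X` with the wreath recursion `a = swap`, `b0 = (b1, a)`,
`b1 = (b0, 1)`. -/
structure Rec (X : Type*) where
  Φ : Bool × X ≃ X
  a : Equiv.Perm X
  b0 : Equiv.Perm X
  b1 : Equiv.Perm X
  ha : ∀ i x, a (Φ (i, x)) = Φ (!i, x)
  h00 : ∀ x, b0 (Φ (false, x)) = Φ (false, b1 x)
  h01 : ∀ x, b0 (Φ (true, x)) = Φ (true, a x)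
  h10 : ∀ x, b1 (Φ (false, x)) = Φ (false, b0 x)
  h11 : ∀ x, b1 (Φ (true, x)) = Φ (true, x)
  sq0 : b0 * b0 = 1
  sq1 : b1 * b1 = 1
  comm : b0 * b1 = b1 * b0

/-- Letters: `(e0, e1)` stands for `b0 ^ e0 * b1 ^ e1`. -/
abbrev V := Bool × Bool

/-- product of letters -/
def vm (u v : V) : V := (xor u.1 v.1, xor u.2 v.2)

/-- swap of the coordinates -/
def sw (u : V) : V := (u.2, u.1)

/-- the two coordinates of a word (the first letter of the list acts first) -/
def Cd : Bool → V → List V → V × List V
  | false, u, [] => (sw u, [])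
  | true, u, [] => if u.1 then ((false, false), [(false, false)]) else ((false, false), [])
  | false, u, (u' :: l) => (vm (Cd true u' l).1 (sw u), (Cd true u' l).2)
  | true, u, (u' :: l) =>
      if u.1 then ((false, false), (Cd false u' l).1 :: (Cd false u' l).2) else Cd false u' l

/-- the number of the letters with `e0 = 1` -/
def al (u : V) (l : List V) : ℕ := (if u.1 then 1 else 0) + (l.map fun v : V => if v.1 then 1 else 0).sum

lemma al_nil (u : V) : al u [] = if u.1 then 1 else 0 := by simp [al]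

lemma al_cons (u v : V) (l : List V) : al u (v :: l) = (if u.1 then 1 else 0) + al v l := by
  simp [al]

lemma len_Cd (l : List V) : ∀ u : V,
    (Cd false u l).2.length + (Cd true u l).2.length = al u l := by
  induction l with
  | nil =>
    rintro ⟨x, y⟩
    cases x <;> simp [Cd, al_nil]
  | cons v l ih =>
    intro u
    rw [al_cons, ← ih v]
    obtain ⟨x, y⟩ := u
    cases x <;> simp [Cd] <;> omega

/-- weights of the letters -/
def wt (v : V) : ℕ := (if v.1 then 1 else 0) + (if v.2 then 1 else 0)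

/-- total length of the coordinates of the coordinates -/
def N2 (u : V) (l : List V) : ℕ := al (Cd false u l).1 (Cd false u l).2 + al (Cd true u l).1 (Cd true u l).2

/-- the indicator of `e0` -/
def e (u : V) : ℕ := if u.1 then 1 else 0

lemma N2_le_aux (l : List V) : ∀ u : V,
    2 * N2 u l ≤ wt u + (l.map wt).sum + e (Cd false u l).1 + e (Cd true u l).1 := by
  induction l with
  | nil =>
    rintro ⟨x, y⟩
    cases x <;> cases y <;> simp [N2, Cd, al_nil, wt, e, sw, al]
  | cons v l ih =>
    intro u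
    have h := ih v
    unfold N2 at h ⊢
    obtain ⟨x, y⟩ := u
    rcases hF : Cd false v l with ⟨⟨p1, p2⟩, P⟩
    rcases hT : Cd true v l with ⟨⟨q1, q2⟩, Q⟩
    rw [hF, hT] at h
    simp only [List.map_cons, List.sum_cons]
    cases x <;> cases y <;> cases p1 <;> cases q1 <;>
      simp [Cd, hF, hT, al, wt, e, sw, vm] at h ⊢ <;> omega

lemma e_le (u : V) : e u ≤ 1 := by
  unfold e
  split <;> omega

/-- the indicator of the letters different from `b0 * b1` -/
def nb (v : V) : ℕ := if v = (true, true) then 0 else 1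

lemma wt_nb (v : V) : wt v + nb v ≤ 2 := by
  obtain ⟨x, y⟩ := v
  cases x <;> cases y <;> simp [wt, nb]

lemma sum_wt (l : List V) : (l.map wt).sum + (l.map nb).sum ≤ 2 * l.length := by
  induction l with
  | nil => simp
  | cons v l ih =>
    have := wt_nb v
    simp only [List.map_cons, List.sum_cons, List.length_cons]
    omega

/-- The main inequality. -/
lemma N2_le (u : V) (l : List V) :
    2 * N2 u l + (nb u + (l.map nb).sum) ≤ 2 * l.length + 4 := by
  have h1 := N2_le_aux l u
  have h2 := sum_wt l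
  have h3 := wt_nb u
  have h4 := e_le (Cd false u l).1
  have h5 := e_le (Cd true u l).1
  omega

namespace Rec

variable {X : Type*} (R : Rec X)

/-- the permutation of a letter -/
def vp (u : V) : Equiv.Perm X := (if u.1 then R.b0 else 1) * (if u.2 then R.b1 else 1)

lemma vp_mul (u v : V) : R.vp (vm u v) = R.vp u * R.vp v := by
  have h0 := R.sq0
  have h1 := R.sq1
  have h2 := R.comm
  obtain ⟨x, y⟩ := u
  obtain ⟨z, w⟩ := v
  have e1 : R.b0 * R.b1 * R.b0 = R.b1 := by rw [h2, mul_assoc, h0, mul_one]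
  have e2 : R.b1 * (R.b0 * R.b1) = R.b0 := by rw [h2, ← mul_assoc, h1, one_mul]
  cases x <;> cases y <;> cases z <;> cases w <;> simp [vp, vm] <;>
    first
    | exact h0.symm
    | exact h1.symm
    | exact h2
    | (rw [← mul_assoc, h0, one_mul])
    | (rw [mul_assoc, h1, mul_one])
    | exact e1.symm
    | exact e2.symm
    | (rw [e1, h1])
    | skip
  · rw [← mul_assoc, e1, h1]

lemma vp_one : R.vp (false, false) = 1 := by simp [vp]

/-- the permutation of a word -/
def Ev : V → List V → Equiv.Perm X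
  | u, [] => R.vp u
  | u, (u' :: l) => Ev u' l * R.a * R.vp u

lemma Ev_mul_vp (u t : V) (l : List V) : R.Ev (vm u t) l = R.Ev u l * R.vp t := by
  cases l with
  | nil => simp [Ev, vp_mul]
  | cons v l => simp [Ev, vp_mul, mul_assoc]

lemma Ev_mul_a (u : V) (l : List V) : R.Ev (false, false) (u :: l) = R.Ev u l * R.a := by
  simp [Ev, vp_one]

/-- parity of the length of a list -/
def par (l : List V) : Bool := decide (l.length % 2 = 1)

lemma par_cons (u : V) (l : List V) : par (u :: l) = !par l := by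
  unfold par
  rw [List.length_cons]
  rcases Nat.mod_two_eq_zero_or_one l.length with h | h
  · have : (l.length + 1) % 2 = 1 := by omega
    simp [h, this]
  · have : (l.length + 1) % 2 = 0 := by omega
    simp [h, this]

lemma par_nil : par [] = false := by simp [par]

lemma a_a : R.a * R.a = 1 := by
  ext x
  obtain ⟨⟨i, y⟩, rfl⟩ := R.Φ.surjective x
  simp [R.ha]

lemma vp_false (u : V) (x : X) : R.vp u (R.Φ (false, x)) = R.Φ (false, R.vp (sw u) x) := by
  obtain ⟨p, q⟩ := u
  have h2 := R.comm
  have h3 : ∀ x, R.b0 (R.b1 x) = R.b1 (R.b0 x) := fun x => by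
    rw [← Equiv.Perm.mul_apply, h2, Equiv.Perm.mul_apply]
  cases p <;> cases q <;> simp [vp, sw, R.h00, R.h10, h3]

lemma vp_true (u : V) (x : X) :
    R.vp u (R.Φ (true, x)) = R.Φ (true, (if u.1 then R.a else 1 : Equiv.Perm X) x) := by
  obtain ⟨p, q⟩ := u
  cases p <;> cases q <;> simp [vp, R.h01, R.h11]

lemma Ev_Φ (l : List V) : ∀ (u : V) (i : Bool) (x : X),
    R.Ev u l (R.Φ (i, x)) = R.Φ (xor i (par l), R.Ev (Cd i u l).1 (Cd i u l).2 x) := by
  induction l with
  | nil =>
    intro u i x
    cases i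
    · simp [Ev, vp_false, Cd, par_nil]
    · rw [Ev, vp_true]
      obtain ⟨p, q⟩ := u
      cases p <;> simp [Cd, par_nil, Ev, vp_one]
  | cons v l ih =>
    intro u i x
    cases i
    · rw [Ev, Equiv.Perm.mul_apply, Equiv.Perm.mul_apply, vp_false, R.ha, ih, par_cons]
      simp only [Cd, Ev_mul_vp, Equiv.Perm.mul_apply]
      simp
    · rw [Ev, Equiv.Perm.mul_apply, Equiv.Perm.mul_apply, vp_true, R.ha, ih, par_cons]
      obtain ⟨p, q⟩ := u
      cases p
      · simp [Cd]
      · simp only [Cd, if_true, Ev_mul_a, Equiv.Perm.mul_apply]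
        simp

/-- two words with the same parity and the same coordinates -/
lemma Ev_ext {u u' : V} {l l' : List V} (hp : par l = par l')
    (h : ∀ i, R.Ev (Cd i u l).1 (Cd i u l).2 = R.Ev (Cd i u' l').1 (Cd i u' l').2) :
    R.Ev u l = R.Ev u' l' := by
  ext x
  obtain ⟨⟨i, y⟩, rfl⟩ := R.Φ.surjective x
  rw [Ev_Φ, Ev_Φ, hp, h i]

end Rec

end Pool.Agent.K6.H83
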